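import Pool.Agent.Helper26.SK.Defs

/-!
# Basic properties of runs; the calculus of local equalities in the skein algebra
-/

namespace Pool.Agent.Helper26.SK

open Str Piece

variable {d : ℕ}

theorem length_lab (d k : ℕ) : (lab d k).length = vis d k := by
  unfold lab vis; split_ifs <;> rfl

theorem run_nil {s t : List Str} : Run d [] s t ↔ s = t := Iff.rfl

theorem run_cons {p : Piece} {D : List Piece} {s t : List Str} :
    Run d (p :: D) s t ↔ ∃ r, Step d p s r ∧ Run d D r t := Iff.rfl

theorem run_append {D E : List Piece} {s t : List Str} :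
    Run d (D ++ E) s t ↔ ∃ r, Run d D s r ∧ Run d E r t := by
  constructor
  · intro h
    induction D generalizing s with
    | nil => exact ⟨s, rfl, h⟩
    | cons p D ih =>
      obtain ⟨x, hx, h⟩ := h
      obtain ⟨r, hr, h'⟩ := ih h
      exact ⟨r, ⟨x, hx, hr⟩, h'⟩
  · rintro ⟨r, h, h'⟩
    exact h.append h'

theorem run_singleton {p : Piece} {s t : List Str} : Run d [p] s t ↔ Step d p s t := by
  simp [Run]

theorem Step.run {p : Piece} {s t : List Str} (h : Step d p s t) : Run d [p] s t :=
  run_singleton.2 h

theorem append_inj3 {A A' X Y B B' : List Str} (h : A ++ X ++ B = A' ++ Y ++ B')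
    (hA : A.length = A'.length) (hX : X.length = Y.length) : A = A' ∧ X = Y ∧ B = B' := by
  rw [List.append_assoc, List.append_assoc] at h
  obtain ⟨h1, h2⟩ := List.append_inj h hA
  obtain ⟨h3, h4⟩ := List.append_inj h2 hX
  exact ⟨h1, h3, h4⟩

/-- Runs are deterministic. -/
theorem Step.det {p : Piece} {s t t' : List Str} (h : Step d p s t) (h' : Step d p s t') :
    t = t' := by
  generalize hs : s = s' at h'
  generalize hp : p = p' at h'
  cases h with
  | cup A B u k h =>
    cases h' with
    | cup A' B' u' k' h' =>
      simp only [Piece.cup.injEq] at hp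
      obtain ⟨hA, rfl, rfl⟩ := hp
      obtain ⟨rfl, rfl⟩ := List.append_inj hs hA
      rfl
    | _ => simp at hp
  | cap A B u k =>
    cases h' with
    | cap A' B' u' k' =>
      simp only [Piece.cap.injEq] at hp
      obtain ⟨rfl, -, rfl⟩ := append_inj3 hs hp rfl
      rfl
    | _ => simp at hp
  | cr A B x y o h =>
    cases h' with
    | cr A' B' x' y' o' h' =>
      simp only [Piece.cr.injEq] at hp
      obtain ⟨rfl, h2, rfl⟩ := append_inj3 hs hp.1 rfl
      simp only [List.cons.injEq, and_true] at h2
      obtain ⟨rfl, rfl⟩ := h2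
      rfl
    | _ => simp at hp
  | merge A B k l h =>
    cases h' with
    | merge A' B' k' l' h' =>
      simp only [Piece.merge.injEq] at hp
      obtain ⟨hA, rfl, rfl⟩ := hp
      obtain ⟨rfl, -, rfl⟩ := append_inj3 hs hA rfl
      rfl
    | _ => simp at hp
  | split A B k l h =>
    cases h' with
    | split A' B' k' l' h' =>
      simp only [Piece.split.injEq] at hp
      obtain ⟨hA, rfl, rfl⟩ := hp
      obtain ⟨rfl, -, rfl⟩ := append_inj3 hs hA rfl
      rfl
    | _ => simp at hp

theorem Run.det {D : List Piece} {s t t' : List Str} (h : Run d D s t) (h' : Run d D s t') :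
    t = t' := by
  induction D generalizing s with
  | nil => cases h; cases h'; rfl
  | cons p D ih =>
    obtain ⟨r, hr, h⟩ := h
    obtain ⟨r', hr', h'⟩ := h'
    obtain rfl := hr.det hr'
    exact ih h h'

theorem shift_zero (p : Piece) : p.shift 0 = p := by cases p <;> rfl

theorem shift_shift (p : Piece) (m n : ℕ) : (p.shift m).shift n = p.shift (m + n) := by
  cases p <;> simp [Piece.shift, Nat.add_assoc]

theorem map_shift_zero (D : List Piece) : D.map (shift 0) = D := by
  rw [List.map_congr_left (fun p _ => shift_zero p), List.map_id']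

theorem map_shift_shift (D : List Piece) (m n : ℕ) :
    (D.map (shift m)).map (shift n) = D.map (shift (m + n)) := by
  rw [List.map_map]
  exact List.map_congr_left (fun p _ => shift_shift p m n)

theorem Step.shift {p : Piece} {s t : List Str} (h : Step d p s t) (A B : List Str) :
    Step d (p.shift A.length) (A ++ s ++ B) (A ++ t ++ B) := by
  cases h with
  | cup A' B' u k h =>
    have := Step.cup (A ++ A') (B' ++ B) u k h
    simpa [Piece.shift, Nat.add_comm] using this
  | cap A' B' u k =>
    have := Step.cap (d := d) (A ++ A') (B' ++ B) u k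
    simpa [Piece.shift, Nat.add_comm] using this
  | cr A' B' x y o h =>
    have := Step.cr (d := d) (A ++ A') (B' ++ B) x y o h
    simpa [Piece.shift, Nat.add_comm] using this
  | merge A' B' k l h =>
    have := Step.merge (A ++ A') (B' ++ B) k l h
    simpa [Piece.shift, Nat.add_comm] using this
  | split A' B' k l h =>
    have := Step.split (A ++ A') (B' ++ B) k l h
    simpa [Piece.shift, Nat.add_comm] using this

theorem Run.shift {D : List Piece} {s t : List Str} (h : Run d D s t) (A B : List Str) :
    Run d (D.map (Piece.shift A.length)) (A ++ s ++ B) (A ++ t ++ B) := by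
  induction D generalizing s with
  | nil => cases h; rfl
  | cons p D ih =>
    obtain ⟨r, hr, h⟩ := h
    exact ⟨A ++ r ++ B, hr.shift A B, ih h⟩

theorem Run.left {D : List Piece} {s t : List Str} (h : Run d D s t) (A : List Str) :
    Run d (D.map (Piece.shift A.length)) (A ++ s) (A ++ t) := by
  simpa using h.shift A []

theorem Run.right {D : List Piece} {s t : List Str} (h : Run d D s t) (B : List Str) :
    Run d D (s ++ B) (t ++ B) := by
  simpa [map_shift_zero] using h.shift [] B

variable {a : ℂ} {m : ℕ}

theorem dg_of_run {D : List Piece} (h : Run d D (poles m) (poles m)) :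
    dg d m D = MonoidAlgebra.single ⟨FreeMonoid.ofList D, h⟩ 1 := dif_pos h

theorem dg_of_not_run {D : List Piece} (h : ¬ Run d D (poles m) (poles m)) :
    dg d m D = 0 := dif_neg h

theorem dg_append {D E : List Piece} (h : Run d D (poles m) (poles m))
    (h' : Run d E (poles m) (poles m)) : dg d m (D ++ E) = dg d m D * dg d m E := by
  rw [dg_of_run h, dg_of_run h', dg_of_run (h.append h'), MonoidAlgebra.single_mul_single]
  simp only [mul_one]
  rfl

theorem cl_append {D E : List Piece} (h : Run d D (poles m) (poles m))
    (h' : Run d E (poles m) (poles m)) : cl d a m (D ++ E) = cl d a m D * cl d a m E := by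
  rw [cl, dg_append h h', map_mul]
  rfl

theorem dg_nil : dg d m [] = 1 := by
  rw [dg_of_run (show Run d [] (poles m) (poles m) from rfl)]
  rfl

theorem cl_nil : cl d a m [] = 1 := by
  rw [cl, dg_nil, map_one]

/-- The classes of diagrams span the skein algebra. -/
theorem span_cl (x : Sk d a m) :
    x ∈ Submodule.span ℂ {y | ∃ D, Run d D (poles m) (poles m) ∧ y = cl d a m D} := by
  obtain ⟨y, rfl⟩ := RingQuot.mkAlgHom_surjective ℂ (Rel d a m) x
  induction y using MonoidAlgebra.induction_on with
  | of g =>
    refine Submodule.subset_span ⟨FreeMonoid.toList g.1, g.2, ?_⟩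
    rw [cl, dg_of_run g.2]
    rfl
  | add f g hf hg => rw [map_add]; exact Submodule.add_mem _ hf hg
  | smul r f hf => rw [map_smul]; exact Submodule.smul_mem _ _ hf

/-- `Loc d a m s t c D E`: the diagrams `D` and `E` lead from `s` to `t`, and inside any larger
diagram, with further strands on both sides, `D` is equal to `c` times `E` in the skein algebra. -/
def Loc (d : ℕ) (a : ℂ) (m : ℕ) (s t : List Str) (c : ℂ) (D E : List Piece) : Prop :=
  Run d D s t ∧ Run d E s t ∧ ∀ (A B : List Str) (U V : List Piece),
    Run d U (poles m) (A ++ s ++ B) → Run d V (A ++ t ++ B) (poles m) →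
    cl d a m (U ++ D.map (shift A.length) ++ V) = c • cl d a m (U ++ E.map (shift A.length) ++ V)

namespace Loc

variable {s t r : List Str} {c c' : ℂ} {D E F D' E' : List Piece}

theorem refl (h : Run d D s t) : Loc d a m s t 1 D D :=
  ⟨h, h, fun _ _ _ _ _ _ => by rw [one_smul]⟩

theorem trans (h : Loc d a m s t c D E) (h' : Loc d a m s t c' E F) :
    Loc d a m s t (c * c') D F :=
  ⟨h.1, h'.2.1, fun A B U V hU hV => by
    rw [h.2.2 A B U V hU hV, h'.2.2 A B U V hU hV, smul_smul]⟩

theorem symm (hc : c ≠ 0) (h : Loc d a m s t c D E) : Loc d a m s t c⁻¹ E D :=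
  ⟨h.2.1, h.1, fun A B U V hU hV => by
    rw [h.2.2 A B U V hU hV, smul_smul, inv_mul_cancel₀ hc, one_smul]⟩

theorem cast (h : Loc d a m s t c D E) (hc : c = c') : Loc d a m s t c' D E := hc ▸ h

/-- transitivity for the coefficient one -/
theorem tr (h : Loc d a m s t 1 D E) (h' : Loc d a m s t 1 E F) : Loc d a m s t 1 D F :=
  (h.trans h').cast (one_mul 1)

/-- symmetry for the coefficient one -/
theorem sy (h : Loc d a m s t 1 D E) : Loc d a m s t 1 E D :=
  (h.symm one_ne_zero).cast inv_one

/-- composition -/
theorem comp (h : Loc d a m s r c D E) (h' : Loc d a m r t c' D' E') :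
    Loc d a m s t (c * c') (D ++ D') (E ++ E') := by
  refine ⟨h.1.append h'.1, h.2.1.append h'.2.1, fun A B U V hU hV => ?_⟩
  have h1 := h.2.2 A B U (D'.map (shift A.length) ++ V) hU ((h'.1.shift A B).append hV)
  have h2 := h'.2.2 A B (U ++ E.map (shift A.length)) V (hU.append (h.2.1.shift A B)) hV
  simp only [List.map_append, List.append_assoc] at h1 h2 ⊢
  rw [h1, h2, smul_smul]

/-- composition for the coefficient one -/
theorem co (h : Loc d a m s r 1 D E) (h' : Loc d a m r t 1 D' E') :
    Loc d a m s t 1 (D ++ D') (E ++ E') := (h.comp h').cast (one_mul 1)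

/-- further strands on the left -/
theorem left (h : Loc d a m s t c D E) (X : List Str) :
    Loc d a m (X ++ s) (X ++ t) c (D.map (shift X.length)) (E.map (shift X.length)) := by
  refine ⟨h.1.left X, h.2.1.left X, fun A B U V hU hV => ?_⟩
  have := h.2.2 (A ++ X) B U V (by simpa using hU) (by simpa using hV)
  rw [map_shift_shift, map_shift_shift, Nat.add_comm]
  simpa using this

/-- further strands on the right -/
theorem right (h : Loc d a m s t c D E) (Y : List Str) :
    Loc d a m (s ++ Y) (t ++ Y) c D E := by
  refine ⟨h.1.right Y, h.2.1.right Y, fun A B U V hU hV => ?_⟩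
  exact h.2.2 A (Y ++ B) U V (by simpa using hU) (by simpa using hV)

/-- From local equalities to equalities in the skein algebra. -/
theorem cl_eq (h : Loc d a m (poles m) (poles m) c D E) : cl d a m D = c • cl d a m E := by
  have := h.2.2 [] [] [] [] (by simp [run_nil]) (by simp [run_nil])
  simpa [map_shift_zero] using this

/-- Isotopies. -/
theorem move (hs : ∀ n, Move d (D.map (shift n)) (E.map (shift n))) (hD : Run d D s t)
    (hE : Run d E s t) : Loc d a m s t 1 D E := by
  refine ⟨hD, hE, fun A B U V hU hV => ?_⟩
  rw [one_smul]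
  exact RingQuot.mkAlgHom_rel ℂ (Rel.move U V _ _ _ _ (hs A.length) hU (hD.shift A B)
    (hE.shift A B) hV)

end Loc

theorem Move.shift {D E : List Piece} (h : Move d D E) (n : ℕ) :
    Move d (D.map (Piece.shift n)) (E.map (Piece.shift n)) := by
  cases h with
  | far x y h =>
    have := Move.far (d := d) (x.shift n) (y.shift n) (by
      cases x <;> cases y <;> simpa [Piece.shift, Piece.pos] using h)
    have hx : (x.shift n).out d = x.out d := by cases x <;> rfl
    have hx' : (x.shift n).inn d = x.inn d := by cases x <;> rfl
    rw [hx, hx', shift_shift, shift_shift, Nat.add_comm n, Nat.add_comm n] at this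
    simpa [shift_shift] using this
  | zigR i u k =>
    have := Move.zigR (d := d) (i + n) u k
    simpa [Piece.shift, Nat.add_right_comm] using this
  | zigL i u k =>
    have := Move.zigL (d := d) (i + n) u k
    simpa [Piece.shift, Nat.add_right_comm] using this
  | slideCup i u k o =>
    have := Move.slideCup (d := d) (i + n) u k o
    simpa [Piece.shift, Nat.add_right_comm] using this
  | slideCap i o =>
    have := Move.slideCap (d := d) (i + n) o
    simpa [Piece.shift, Nat.add_right_comm] using this
  | slideMerge i k l o =>
    have := Move.slideMerge (d := d) (i + n) k l o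
    split_ifs at this ⊢ <;> simpa [Piece.shift, Nat.add_right_comm] using this
  | slideSplit i k l o =>
    have := Move.slideSplit (d := d) (i + n) k l o
    split_ifs at this ⊢ <;> simpa [Piece.shift, Nat.add_right_comm] using this
  | r2 i o =>
    have := Move.r2 (d := d) (i + n) o
    simpa [Piece.shift, Nat.add_right_comm] using this
  | r3 i o₁ o₂ o₃ h =>
    have := Move.r3 (d := d) (i + n) o₁ o₂ o₃ h
    simpa [Piece.shift, Nat.add_right_comm] using this
  | curl i u k o =>
    have := Move.curl (d := d) (i + n) u k o
    simpa [Piece.shift, Nat.add_right_comm] using this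
  | turnMerge i k l =>
    have := Move.turnMerge (d := d) (i + n) k l
    split_ifs at this ⊢ <;> simpa [Piece.shift, Nat.add_right_comm] using this
  | turnSplit i k l =>
    have := Move.turnSplit (d := d) (i + n) k l
    split_ifs at this ⊢ <;> simpa [Piece.shift, Nat.add_right_comm] using this

/-- Isotopies are local equalities. -/
theorem Loc.iso {s t : List Str} {D E : List Piece} (h : Move d D E)
    (hD : Run d D s t) (hE : Run d E s t) : Loc d a m s t 1 D E :=
  Loc.move (fun n => h.shift n) hD hE

end Pool.Agent.Helper26.SK
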