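import Pool.Agent.Helper26.SK.Switch

/-!
# The loop around the first two poles is central at `q = ± 1`
-/

namespace Pool.Agent.Helper26.SK

set_option linter.unusedSimpArgs false

open Str Piece

variable {d : ℕ} {a : ℂ} {m : ℕ}

theorem overlap {A X B L R : List Str} (h : A ++ X ++ B = L ++ pole :: R) :
    (∃ E, L = A ++ X ++ E ∧ B = E ++ pole :: R) ∨
    (∃ C, A = L ++ pole :: C ∧ R = C ++ X ++ B) ∨
    (∃ C E, X = C ++ pole :: E ∧ L = A ++ C ∧ R = E ++ B) := by
  rw [List.append_assoc, List.append_eq_append_iff] at h
  rcases h with ⟨C, hL, hC⟩ | ⟨C, hA, hC⟩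
  · rw [List.append_eq_append_iff] at hC
    rcases hC with ⟨E, hE, hB⟩ | ⟨E, hX, hE⟩
    · exact Or.inl ⟨E, by rw [hL, hE, List.append_assoc], hB⟩
    · rcases E with _ | ⟨e, E⟩
      · refine Or.inl ⟨[], ?_, ?_⟩
        · rw [hL, hX]; simp
        · simpa using hE.symm
      · rw [List.cons_append, List.cons.injEq] at hE
        obtain ⟨rfl, hR⟩ := hE
        exact Or.inr (Or.inr ⟨C, E, hX, hL, hR⟩)
  · rcases C with _ | ⟨e, C⟩
    · rw [List.nil_append] at hC
      rw [List.append_nil] at hA
      rcases X with _ | ⟨x, X⟩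
      · exact Or.inl ⟨[], by simp [hA], by simpa using hC.symm⟩
      · rw [List.cons_append, List.cons.injEq] at hC
        obtain ⟨rfl, hR⟩ := hC
        exact Or.inr (Or.inr ⟨[], X, rfl, by simp [hA], hR⟩)
    · rw [List.cons_append, List.cons.injEq] at hC
      obtain ⟨rfl, hR⟩ := hC
      exact Or.inr (Or.inl ⟨C, hA, by rw [hR, List.append_assoc]⟩)

/-- A step in the presence of a marked pole. -/
theorem step_pole {p : Piece} {L R t : List Str} (h : Step d p (L ++ pole :: R) t) :
    (∃ L', Step d p L L' ∧ t = L' ++ pole :: R) ∨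
    (∃ p' R', p = p'.shift (L.length + 1) ∧ Step d p' R R' ∧ t = L ++ pole :: R') ∨
    (∃ L₀ x o, L = L₀ ++ [x] ∧ x ≠ pole ∧ p = cr L₀.length o ∧ t = L₀ ++ pole :: x :: R) ∨
    (∃ x R₀ o, R = x :: R₀ ∧ x ≠ pole ∧ p = cr L.length o ∧ t = L ++ x :: pole :: R₀) := by
  generalize hs : L ++ pole :: R = s at h
  cases h with
  | cup A B u k h =>
    have hs' : A ++ [] ++ B = L ++ pole :: R := by simpa using hs.symm
    rcases overlap hs' with ⟨E, rfl, rfl⟩ | ⟨C, rfl, rfl⟩ | ⟨C, E, hX, -, -⟩
    · refine Or.inl ⟨A ++ [web u k, web (!u) k] ++ E, ?_, by simp⟩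
      simpa using Step.cup A E u k h
    · refine Or.inr (Or.inl ⟨cup C.length u k, C ++ [web u k, web (!u) k] ++ B, ?_, ?_, by simp⟩)
      · simp [Piece.shift]; omega
      · simpa using Step.cup C B u k h
    · simp at hX
  | cap A B u k =>
    rcases overlap hs.symm with ⟨E, rfl, rfl⟩ | ⟨C, rfl, rfl⟩ | ⟨C, E, hX, -, -⟩
    · exact Or.inl ⟨A ++ E, Step.cap A E u k, by simp⟩
    · refine Or.inr (Or.inl ⟨cap C.length, C ++ B, ?_, Step.cap C B u k, by simp⟩)
      simp [Piece.shift]; omega
    · have : pole ∈ [web u k, web (!u) k] := by rw [hX]; simp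
      simp at this
  | cr A B x y o h =>
    rcases overlap hs.symm with ⟨E, rfl, rfl⟩ | ⟨C, rfl, rfl⟩ | ⟨C, E, hX, rfl, rfl⟩
    · exact Or.inl ⟨A ++ [y, x] ++ E, Step.cr A E x y o h, by simp⟩
    · refine Or.inr (Or.inl ⟨cr C.length o, C ++ [y, x] ++ B, ?_, Step.cr C B x y o h, by simp⟩)
      simp [Piece.shift]; omega
    · rcases C with _ | ⟨c, C⟩
      · simp only [List.nil_append, List.cons.injEq] at hX
        obtain ⟨rfl, rfl⟩ := hX
        refine Or.inr (Or.inr (Or.inr ⟨y, B, o, rfl, ?_, by simp, by simp⟩))
        rintro rfl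
        exact h ⟨rfl, rfl⟩
      · rcases C with _ | ⟨c', C⟩
        · simp only [List.cons_append, List.nil_append, List.cons.injEq] at hX
          obtain ⟨rfl, rfl, rfl⟩ := hX
          refine Or.inr (Or.inr (Or.inl ⟨A, x, o, rfl, ?_, rfl, by simp⟩))
          rintro rfl
          exact h ⟨rfl, rfl⟩
        · simp at hX
  | merge A B k l h =>
    rcases overlap hs.symm with ⟨E, rfl, rfl⟩ | ⟨C, rfl, rfl⟩ | ⟨C, E, hX, -, -⟩
    · exact Or.inl ⟨A ++ lab d (k + l) ++ E, Step.merge A E k l h, by simp⟩
    · refine Or.inr (Or.inl ⟨merge C.length k l, C ++ lab d (k + l) ++ B, ?_,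
        Step.merge C B k l h, by simp⟩)
      simp [Piece.shift]; omega
    · have : pole ∈ [web true k, web true l] := by rw [hX]; simp
      simp at this
  | split A B k l h =>
    rcases overlap hs.symm with ⟨E, rfl, rfl⟩ | ⟨C, rfl, rfl⟩ | ⟨C, E, hX, -, -⟩
    · exact Or.inl ⟨A ++ [web true k, web true l] ++ E, Step.split A E k l h, by simp⟩
    · refine Or.inr (Or.inl ⟨split C.length k l, C ++ [web true k, web true l] ++ B, ?_,
        Step.split C B k l h, by simp⟩)
      simp [Piece.shift]; omega
    · have : pole ∈ lab d (k + l) := by rw [hX]; simp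
      unfold lab at this
      split_ifs at this <;> simp at this

/-- All webs have weights between `1` and `d - 1`. -/
def Valid (d : ℕ) (s : List Str) : Prop := ∀ u k, web u k ∈ s → 0 < k ∧ k < d

theorem Step.valid {p : Piece} {s t : List Str} (h : Step d p s t) (hs : Valid d s) :
    Valid d t := by
  intro u k hk
  cases h with
  | cup A B u' k' h =>
    simp only [List.mem_append, List.mem_cons, web.injEq, List.not_mem_nil, or_false] at hk
    rcases hk with (hk | ⟨-, rfl⟩ | ⟨-, rfl⟩) | hk
    · exact hs u k (by simp [hk])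
    · exact h
    · exact h
    · exact hs u k (by simp [hk])
  | cap A B u' k' =>
    simp only [List.mem_append] at hk
    rcases hk with hk | hk <;> exact hs u k (by simp [hk])
  | cr A B x y o h =>
    refine hs u k ?_
    simp only [List.mem_append, List.mem_cons, List.not_mem_nil, or_false] at hk ⊢
    tauto
  | merge A B k' l h =>
    simp only [List.mem_append] at hk
    rcases hk with (hk | hk) | hk
    · exact hs u k (by simp [hk])
    · unfold lab at hk
      split_ifs at hk with h'
      · simp only [List.mem_cons, web.injEq, List.not_mem_nil, or_false] at hk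
        rw [hk.2]; exact h'
      · simp at hk
    · exact hs u k (by simp [hk])
  | split A B k' l h =>
    simp only [List.mem_append, List.mem_cons, web.injEq, List.not_mem_nil, or_false] at hk
    rcases hk with (hk | ⟨-, rfl⟩ | ⟨-, rfl⟩) | hk
    · exact hs u k (by simp [hk])
    · omega
    · omega
    · exact hs u k (by simp [hk])

theorem count_lab (k : ℕ) : (lab d k).count pole = 0 := by
  unfold lab; split_ifs <;> rfl

theorem Step.count {p : Piece} {s t : List Str} (h : Step d p s t) :
    t.count pole = s.count pole := by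
  cases h with
  | cup A B u' k' h => simp [List.count_cons]
  | cap A B u' k' => simp [List.count_cons]
  | cr A B x y o h => simp only [List.count_append, List.count_cons, List.count_nil]; omega
  | merge A B k' l h => simp [List.count_cons, count_lab]
  | split A B k' l h => simp [List.count_cons, count_lab]

/-- The product of the factors of the strands. -/
noncomputable def gp (a : ℂ) (L : List Str) : ℂ := (L.map (gs a)).prod

theorem gp_ne_zero (ha : a ≠ 0) (L : List Str) : gp a L ≠ 0 := by
  rw [gp]
  apply List.prod_ne_zero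
  intro h
  obtain ⟨x, -, hx⟩ := List.mem_map.1 h
  exact gs_ne_zero ha x hx

theorem gp_append (L R : List Str) : gp a (L ++ R) = gp a L * gp a R := by
  simp [gp]

theorem gp_pair (ha : a ≠ 0) (u : Bool) (k : ℕ) : gp a [web u k, web (!u) k] = 1 := by
  have : a ^ (2 * k) ≠ 0 := pow_ne_zero _ ha
  cases u <;> simp [gp, gs, this]

theorem gp_lab (hd : (a ^ d) ^ 2 = 1) {k l : ℕ} (h : 0 < k ∧ 0 < l ∧ k + l ≤ d) :
    gp a (lab d (k + l)) = gp a [web true k, web true l] := by
  have e : gp a [web true k, web true l] = a ^ (2 * (k + l)) := by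
    simp [gp, gs, mul_add, pow_add]
  rcases lab_cases d (show 0 < k + l by omega) h.2.2 with ⟨h1, h2, h3⟩ | ⟨h1, h2, h3⟩
  · rw [h2, e]; simp [gp, gs]
  · rw [h2, e, h1, mul_comm, pow_mul, hd]
    rfl

theorem Step.gp_eq (ha : a ≠ 0) (hd : (a ^ d) ^ 2 = 1) {p : Piece} {s t : List Str}
    (h : Step d p s t) : gp a t = gp a s := by
  cases h with
  | cup A B u' k' h => simp only [gp_append, gp_pair ha, mul_one]
  | cap A B u' k' => simp only [gp_append, gp_pair ha, mul_one]
  | cr A B x y o h =>
    simp only [gp_append]
    congr 2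
    simp [gp, mul_comm]
  | merge A B k' l h => simp only [gp_append, gp_lab hd h]
  | split A B k' l h => simp only [gp_append, gp_lab hd h]

/-- The strand passing in front of resp. behind the poles up to the marked one, and the
diagram `D`. -/
def Pass (d : ℕ) (a : ℂ) (m : ℕ) (D : List Piece) (L R L' R' : List Str) : Prop :=
  L'.count pole = L.count pole ∧ ∃ z : Bool → List Piece,
    (∀ σ, Loc d a m (web true 1 :: (L ++ pole :: R)) (L' ++ pole :: web true 1 :: R') 1
      (D.map (shift 1) ++ arc σ (L'.length + 1)) (arc σ (L.length + 1) ++ z σ)) ∧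
    Loc d a m (L ++ pole :: web true 1 :: R) (L' ++ pole :: web true 1 :: R')
      (gp a L / gp a L') (z true) (z false)

theorem run_arc1 (σ : Bool) (L R : List Str) :
    Run d (arc σ (L.length + 1)) (web true 1 :: (L ++ pole :: R))
      (L ++ pole :: web true 1 :: R) := by
  have := (run_arc' (d := d) (v := web true 1) (by simp) σ (L ++ [pole]) (n := L.length + 1)
    (by simp)).right R
  simpa using this

theorem pass_step (ha : a ≠ 0) (hd : (a ^ d) ^ 2 = 1) (h1 : 1 < d) {p : Piece} {L R t : List Str}
    (hv : Valid d (L ++ pole :: R)) (h : Step d p (L ++ pole :: R) t) :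
    ∃ L' R', t = L' ++ pole :: R' ∧ Pass d a m [p] L R L' R' := by
  have hw : web true 1 ≠ pole := by simp
  rcases step_pole h with ⟨L', hL, rfl⟩ | ⟨p', R', rfl, hR, rfl⟩ |
    ⟨L₀, x, o, rfl, hx, rfl, rfl⟩ | ⟨x, R₀, o, rfl, hx, rfl, rfl⟩
  · -- to the left of the pole
    refine ⟨L', R, rfl, hL.count, fun _ => [p], fun σ => ?_, ?_⟩
    · have := ((nat_step (a := a) (m := m) (w := true) (c := 1) σ hL).right hw hL.run [pole])
      unfold Nat' at this
      have := this.right R
      simpa using this
    · rw [hL.gp_eq ha hd, div_self (gp_ne_zero ha L)]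
      exact Loc.refl (hL.run.right _)
  · -- to the right of the pole
    refine ⟨L, R', rfl, rfl, fun _ => [p'.shift (L.length + 2)], fun σ => ?_, ?_⟩
    · have := (inter (a := a) (m := m) (run_arc (d := d) hw σ (L ++ [pole])) hR.run).sy
      simpa [shift_shift] using this
    · rw [div_self (gp_ne_zero ha L)]
      have := hR.run.left (L ++ [pole, web true 1])
      exact Loc.refl (by simpa using this)
  · -- a strand crosses the pole from left to right
    have hx' : ∃ u k, x = web u k ∧ 0 < k ∧ k < d := by
      rcases x with _ | ⟨u, k⟩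
      · exact absurd rfl hx
      · exact ⟨u, k, rfl, hv u k (by simp)⟩
    obtain ⟨u, k, rfl, hk⟩ := hx'
    refine ⟨L₀, web u k :: R, rfl, by simp, fun σ => [cr L₀.length o, cr (L₀.length + 1) (!σ)],
      fun σ => ?_, ?_⟩
    · have e1 : Loc d a m [web true 1, web u k, pole] [pole, web true 1, web u k] 1
          ([cr 1 o, cr 0 σ]) ([cr 0 σ, cr 1 σ, cr 0 o, cr 1 (!σ)]) := by
        have f1 : Loc d a m [web true 1, web u k, pole] [pole, web true 1, web u k] 1
            ([cr 0 σ, cr 1 σ, cr 0 o] ++ [cr 1 (!σ)]) ([cr 1 o, cr 0 σ, cr 1 σ] ++ [cr 1 (!σ)]) :=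
          Loc.co (r := [pole, web u k, web true 1]) (Loc.iso (Move.r3 0 σ σ o (by simp))
            (by simp [Run, step_cr_succ, step_cr_zero]) (by simp [Run, step_cr_succ, step_cr_zero]))
            (Loc.refl (by simp [Run, step_cr_succ, step_cr_zero]))
        have f2 : Loc d a m [web true 1, web u k, pole] [pole, web true 1, web u k] 1
            ([cr 1 o, cr 0 σ] ++ [cr 1 σ, cr 1 (!σ)]) ([cr 1 o, cr 0 σ] ++ []) :=
          Loc.co (r := [pole, web true 1, web u k])
            (Loc.refl (by simp [Run, step_cr_succ, step_cr_zero]))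
            (Loc.iso (Move.r2 1 σ)
            (by simp [Run, step_cr_succ, step_cr_zero]) (by simp [Run]))
        exact (f1.tr f2).sy
      have e2 := (e1.left L₀).right R
      have e3 : Loc d a m (web true 1 :: (L₀ ++ web u k :: pole :: R))
          (L₀ ++ web true 1 :: pole :: web u k :: R) 1
          ([cr (L₀.length + 1) o] ++ arc σ L₀.length)
          (arc σ L₀.length ++ [cr (L₀.length + 1) o]) := by
        have hc : Run d [cr 0 o] (web u k :: pole :: R) (pole :: web u k :: R) := by
          simp [Run, step_cr_zero]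
        have := (inter (a := a) (m := m) (run_arc (d := d) hw σ L₀) hc).sy
        simpa [Piece.shift] using this
      have e4 := e3.co (Loc.refl (a := a) (m := m)
        (show Run d [cr L₀.length σ] (L₀ ++ web true 1 :: pole :: web u k :: R)
          (L₀ ++ pole :: web true 1 :: web u k :: R) by
          have := Step.cr (d := d) L₀ (web u k :: R) (web true 1) pole σ (by simp)
          simpa [run_singleton] using this))
      have e5 : Loc d a m (web true 1 :: (L₀ ++ web u k :: pole :: R))
          (L₀ ++ pole :: web true 1 :: web u k :: R) 1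
          (arc σ L₀.length ++ [cr (L₀.length + 1) o, cr L₀.length σ])
          (arc σ L₀.length ++ [cr L₀.length σ, cr (L₀.length + 1) σ, cr L₀.length o,
            cr (L₀.length + 1) (!σ)]) := by
        refine Loc.co (r := L₀ ++ web true 1 :: web u k :: pole :: R) (Loc.refl ?_) ?_
        · simpa using (run_arc (d := d) hw σ L₀).right (web u k :: pole :: R)
        · simpa [Piece.shift, Nat.add_comm] using e2
      have e6 := e4.tr (by simpa using e5)
      simpa [arc, Piece.shift] using e6
    · have e1 := ((switch_right (m := m) ha hd (u := u) hk h1).symm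
        (inv_ne_zero (gs_ne_zero ha _))).left (L₀ ++ [pole])
      have e2 := e1.right R
      have e3 : Loc d a m (L₀ ++ [web u k] ++ pole :: web true 1 :: R)
          (L₀ ++ pole :: web true 1 :: web u k :: R)
          (1 * (gs a (web u k))⁻¹⁻¹) ([cr L₀.length o] ++ [cr (L₀.length + 1) false])
          ([cr L₀.length o] ++ [cr (L₀.length + 1) true]) := by
        refine Loc.comp (r := L₀ ++ pole :: web u k :: web true 1 :: R) (Loc.refl ?_) ?_
        · have := Step.cr (d := d) L₀ (web true 1 :: R) (web u k) pole o (by simp)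
          simpa [run_singleton] using this
        · simpa [Piece.shift, Nat.add_comm] using e2
      refine Loc.cast (by simpa using e3) ?_
      rw [gp_append, mul_comm (gp a L₀), mul_div_assoc, div_self (gp_ne_zero ha L₀)]
      simp [gp]
  · -- a strand crosses the pole from right to left
    have hx' : ∃ u k, x = web u k ∧ 0 < k ∧ k < d := by
      rcases x with _ | ⟨u, k⟩
      · exact absurd rfl hx
      · exact ⟨u, k, rfl, hv u k (by simp)⟩
    obtain ⟨u, k, rfl, hk⟩ := hx'
    refine ⟨L ++ [web u k], R₀, by simp, by simp,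
      fun σ => [cr (L.length + 1) σ, cr L.length o], fun σ => ?_, ?_⟩
    · have e1 : Loc d a m [web true 1, pole, web u k] [web u k, pole, web true 1] 1
          ([cr 1 o, cr 0 σ, cr 1 σ]) ([cr 0 σ, cr 1 σ, cr 0 o]) :=
        (Loc.iso (Move.r3 0 σ σ o (by simp))
            (by simp [Run, step_cr_succ, step_cr_zero])
            (by simp [Run, step_cr_succ, step_cr_zero])).sy
      have e2 := (e1.left L).right R₀
      have e3 : Loc d a m (web true 1 :: (L ++ pole :: web u k :: R₀))
          (L ++ web true 1 :: web u k :: pole :: R₀) 1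
          ([cr (L.length + 1) o] ++ arc σ L.length)
          (arc σ L.length ++ [cr (L.length + 1) o]) := by
        have hc : Run d [cr 0 o] (pole :: web u k :: R₀) (web u k :: pole :: R₀) := by
          simp [Run, step_cr_zero]
        have := (inter (a := a) (m := m) (run_arc (d := d) hw σ L) hc).sy
        simpa [Piece.shift] using this
      have e4 := e3.co (Loc.refl (a := a) (m := m)
        (show Run d [cr L.length σ, cr (L.length + 1) σ]
          (L ++ web true 1 :: web u k :: pole :: R₀)
          (L ++ web u k :: pole :: web true 1 :: R₀) by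
          have h0 : Run d [cr 0 σ, cr 1 σ] [web true 1, web u k, pole]
            [web u k, pole, web true 1] := by simp [Run, step_cr_succ, step_cr_zero]
          have := (h0.left L).right R₀
          simpa [Piece.shift, Nat.add_comm] using this))
      have e5 : Loc d a m (web true 1 :: (L ++ pole :: web u k :: R₀))
          (L ++ web u k :: pole :: web true 1 :: R₀) 1
          (arc σ L.length ++ [cr (L.length + 1) o, cr L.length σ, cr (L.length + 1) σ])
          (arc σ L.length ++ [cr L.length σ, cr (L.length + 1) σ, cr L.length o]) := by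
        refine Loc.co (r := L ++ web true 1 :: pole :: web u k :: R₀) (Loc.refl ?_) ?_
        · simpa using (run_arc (d := d) hw σ L).right (pole :: web u k :: R₀)
        · simpa [Piece.shift, Nat.add_comm] using e2
      have e6 := e4.tr (by simpa using e5)
      simpa [arc, Piece.shift] using e6
    · have e1 := (switch_left (m := m) ha hd (u := u) hk h1).left (L ++ [pole])
      have e2 := e1.right R₀
      have e3 : Loc d a m (L ++ pole :: web true 1 :: web u k :: R₀)
          (L ++ [web u k] ++ pole :: web true 1 :: R₀)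
          ((gs a (web u k))⁻¹ * 1) ([cr (L.length + 1) true] ++ [cr L.length o])
          ([cr (L.length + 1) false] ++ [cr L.length o]) := by
        refine Loc.comp (r := L ++ pole :: web u k :: web true 1 :: R₀) ?_ (Loc.refl ?_)
        · simpa [Piece.shift, Nat.add_comm] using e2
        · have := Step.cr (d := d) L (web true 1 :: R₀) pole (web u k) o (by simp)
          simpa [run_singleton] using this
      refine Loc.cast e3 ?_
      have hg := gp_ne_zero ha L
      have hg' := gs_ne_zero ha (web u k)
      rw [gp_append]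
      have : gp a [web u k] = gs a (web u k) := by simp [gp]
      rw [this]
      field_simp

theorem pass_run (ha : a ≠ 0) (hd : (a ^ d) ^ 2 = 1) (h1 : 1 < d) {D : List Piece} {L R t : List Str}
    (hv : Valid d (L ++ pole :: R)) (h : Run d D (L ++ pole :: R) t) :
    ∃ L' R', t = L' ++ pole :: R' ∧ Pass d a m D L R L' R' := by
  induction D generalizing L R with
  | nil =>
    cases h
    refine ⟨L, R, rfl, rfl, fun _ => [], fun σ => ?_, ?_⟩
    · simpa using Loc.refl (a := a) (m := m) (run_arc1 (d := d) σ L R)
    · rw [div_self (gp_ne_zero ha L)]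
      exact Loc.refl rfl
  | cons p D ih =>
    obtain ⟨r, hp, hD⟩ := h
    obtain ⟨L₁, R₁, rfl, hc, z, hz, hz'⟩ := pass_step (m := m) ha hd h1 hv hp
    obtain ⟨L₂, R₂, rfl, hc₂, y, hy, hy'⟩ := ih (hp.valid hv) hD
    refine ⟨L₂, R₂, rfl, hc₂.trans hc, fun σ => z σ ++ y σ, fun σ => ?_, ?_⟩
    · have hyr : Run d (y σ) (L₁ ++ pole :: web true 1 :: R₁)
          (L₂ ++ pole :: web true 1 :: R₂) := by
        cases σ
        · exact hy'.2.1
        · exact hy'.1
      have f1 := (Loc.refl (a := a) (m := m) (show Run d [p.shift 1]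
        (web true 1 :: (L ++ pole :: R)) (web true 1 :: (L₁ ++ pole :: R₁)) from
        hp.run.left [web true 1])).co (hy σ)
      have f2 := (hz σ).co (Loc.refl (a := a) (m := m) hyr)
      have := (show Loc d a m _ _ 1 _ _ by simpa using f1).tr (by simpa using f2)
      simpa using this
    · refine (hz'.comp hy').cast ?_
      have g1 := gp_ne_zero ha L₁
      field_simp

theorem poles_three : poles 3 = [pole, pole, pole] := rfl

theorem ring_two : ring 0 2 false 1 =
    [cup 0 false 1] ++ (arc true 2 ++ [cr 1 true, cr 0 true]).map (shift 1) ++ [cap 0] := rfl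

/-- The loop around the first two poles commutes with every diagram. -/
theorem loc_comm (ha : a ≠ 0) (hd : (a ^ d) ^ 2 = 1) (h1 : 1 < d) {D : List Piece}
    (hD : Run d D (poles 3) (poles 3)) :
    Loc d a m (poles 3) (poles 3) 1 (ring 0 2 false 1 ++ D) (D ++ ring 0 2 false 1) := by
  rw [poles_three] at hD ⊢
  have hv : Valid d [pole, pole, pole] := by intro u k h; simp at h
  obtain ⟨L', R', hL, hc, z, hz, hz'⟩ := pass_run (m := m) (L := [pole]) (R := [pole]) ha hd h1
    hv hD
  obtain ⟨rfl, rfl⟩ : L' = [pole] ∧ R' = [pole] := by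
    rcases L' with _ | ⟨x, _ | ⟨y, _ | ⟨w, L'⟩⟩⟩
    · simp at hc
    · simp only [List.cons_append, List.nil_append, List.cons.injEq, true_and] at hL
      obtain ⟨rfl, rfl⟩ := hL
      exact ⟨rfl, rfl⟩
    · simp only [List.cons_append, List.nil_append, List.cons.injEq] at hL
      obtain ⟨rfl, rfl, -⟩ := hL
      simp at hc
    · have := congrArg List.length hL
      simp at this
  have hg : gp a [pole] / gp a [pole] = 1 := div_self (gp_ne_zero ha _)
  rw [hg] at hz'
  simp only [List.cons_append, List.nil_append] at hz' hz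
  have hzT := hz true
  have hzF := hz false
  change Loc d a m _ _ 1 (D.map (shift 1) ++ arc true 2) (arc true 2 ++ z true) at hzT
  change Loc d a m _ _ 1 (D.map (shift 1) ++ arc false 2) (arc false 2 ++ z false) at hzF
  have rInv : Run d [cr 1 true, cr 0 true] [pole, pole, web true 1, pole]
      [web true 1, pole, pole, pole] := by
    simp [Run, step_cr_succ, step_cr_zero]
  have rArc : ∀ σ, Run d (arc σ 2) [web true 1, pole, pole, pole]
      [pole, pole, web true 1, pole] := by
    intro σ
    simp [arc, Run, step_cr_succ, step_cr_zero]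
  have rD : Run d (D.map (shift 1)) [web true 1, pole, pole, pole]
      [web true 1, pole, pole, pole] := hD.left [web true 1]
  -- cancellations
  have c1 : Loc d a m [web true 1, pole, pole, pole] [web true 1, pole, pole, pole] 1
      (arc false 2 ++ [cr 1 true, cr 0 true]) [] := by
    have f1 : Loc d a m [web true 1, pole, pole, pole] [web true 1, pole, pole, pole] 1
        ([cr 0 false] ++ ([cr 1 false, cr 1 true] ++ [cr 0 true]))
        ([cr 0 false] ++ ([] ++ [cr 0 true])) := by
      refine Loc.co (r := [pole, web true 1, pole, pole]) (Loc.refl ?_)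
        (Loc.co (r := [pole, web true 1, pole, pole]) (Loc.iso (Move.r2 1 false) ?_ ?_)
          (Loc.refl ?_))
      · simp [Run, step_cr_succ, step_cr_zero]
      · simp [Run, step_cr_succ, step_cr_zero]
      · simp [Run]
      · simp [Run, step_cr_succ, step_cr_zero]
    exact f1.tr (Loc.iso (Move.r2 0 false) (by simp [Run, step_cr_succ, step_cr_zero])
      (by simp [Run]))
  have c2 : Loc d a m [pole, pole, web true 1, pole] [pole, pole, web true 1, pole] 1
      ([cr 1 true, cr 0 true] ++ arc false 2) [] := by
    have f1 : Loc d a m [pole, pole, web true 1, pole] [pole, pole, web true 1, pole] 1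
        ([cr 1 true] ++ ([cr 0 true, cr 0 false] ++ [cr 1 false]))
        ([cr 1 true] ++ ([] ++ [cr 1 false])) := by
      refine Loc.co (r := [pole, web true 1, pole, pole]) (Loc.refl ?_)
        (Loc.co (r := [pole, web true 1, pole, pole]) (Loc.iso (Move.r2 0 true) ?_ ?_)
          (Loc.refl ?_))
      · simp [Run, step_cr_succ, step_cr_zero]
      · simp [Run, step_cr_succ, step_cr_zero]
      · simp [Run]
      · simp [Run, step_cr_succ, step_cr_zero]
    exact f1.tr (Loc.iso (Move.r2 1 true) (by simp [Run, step_cr_succ, step_cr_zero])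
      (by simp [Run]))
  -- the back arc passes the diagram
  have b1 : Loc d a m [pole, pole, web true 1, pole] [web true 1, pole, pole, pole] 1
      ([cr 1 true, cr 0 true] ++ D.map (shift 1)) (z false ++ [cr 1 true, cr 0 true]) := by
    have g1 := (Loc.refl (a := a) (m := m) (rInv.append rD)).co c1
    have g2 := ((Loc.refl (a := a) (m := m) rInv).co hzF).co (Loc.refl (a := a) (m := m) rInv)
    have g3 := (c2.co (Loc.refl (a := a) (m := m) hz'.2.1)).co
      (Loc.refl (a := a) (m := m) rInv)
    have g1' : Loc d a m [pole, pole, web true 1, pole] [web true 1, pole, pole, pole] 1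
      ([cr 1 true, cr 0 true] ++ (D.map (shift 1) ++ (arc false 2 ++ [cr 1 true, cr 0 true])))
      ([cr 1 true, cr 0 true] ++ D.map (shift 1)) := by simpa using g1
    have g2' : Loc d a m [pole, pole, web true 1, pole] [web true 1, pole, pole, pole] 1
      ([cr 1 true, cr 0 true] ++ (D.map (shift 1) ++ (arc false 2 ++ [cr 1 true, cr 0 true])))
      ([cr 1 true, cr 0 true] ++ (arc false 2 ++ (z false ++ [cr 1 true, cr 0 true]))) := by
      simpa using g2
    have g3' : Loc d a m [pole, pole, web true 1, pole] [web true 1, pole, pole, pole] 1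
      ([cr 1 true, cr 0 true] ++ (arc false 2 ++ (z false ++ [cr 1 true, cr 0 true])))
      (z false ++ [cr 1 true, cr 0 true]) := by
      simpa using g3
    exact g1'.sy.tr (g2'.tr g3')
  -- the loop passes the diagram
  have b2 : Loc d a m [web true 1, pole, pole, pole] [web true 1, pole, pole, pole] 1
      ((arc true 2 ++ [cr 1 true, cr 0 true]) ++ D.map (shift 1))
      (D.map (shift 1) ++ (arc true 2 ++ [cr 1 true, cr 0 true])) := by
    have g1 := (Loc.refl (a := a) (m := m) (rArc true)).co b1
    have g2 := (Loc.refl (a := a) (m := m) (rArc true)).co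
      (hz'.sy.co (Loc.refl (a := a) (m := m) rInv))
    have g3 := hzT.sy.co (Loc.refl (a := a) (m := m) rInv)
    have g1' : Loc d a m [web true 1, pole, pole, pole] [web true 1, pole, pole, pole] 1
      ((arc true 2 ++ [cr 1 true, cr 0 true]) ++ D.map (shift 1))
      (arc true 2 ++ (z false ++ [cr 1 true, cr 0 true])) := by simpa using g1
    have g2' : Loc d a m [web true 1, pole, pole, pole] [web true 1, pole, pole, pole] 1
      (arc true 2 ++ (z false ++ [cr 1 true, cr 0 true]))
      (arc true 2 ++ (z true ++ [cr 1 true, cr 0 true])) := g2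
    have g3' : Loc d a m [web true 1, pole, pole, pole] [web true 1, pole, pole, pole] 1
      (arc true 2 ++ (z true ++ [cr 1 true, cr 0 true]))
      (D.map (shift 1) ++ (arc true 2 ++ [cr 1 true, cr 0 true])) := by simpa using g3
    exact g1'.tr (g2'.tr g3')
  -- the whole loop
  have rcup : Run d [cup 0 false 1] [] [web false 1, web true 1] := by
    simp [Run, step_cup_zero, h1]
  have rcap : Run d [cap 0] [web false 1, web true 1] [] := by
    simp [Run, step_cap_zero]
  have b3 := b2.left [web false 1]
  have k1 := inter (a := a) (m := m) rcap hD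
  have k2 := inter (a := a) (m := m) rcup hD
  have rM : Run d ((arc true 2 ++ [cr 1 true, cr 0 true]).map (shift 1))
      [web false 1, web true 1, pole, pole, pole] [web false 1, web true 1, pole, pole, pole] :=
    ((rArc true).append rInv).left [web false 1]
  have rC : Run d [cup 0 false 1] [pole, pole, pole]
      [web false 1, web true 1, pole, pole, pole] := rcup.right [pole, pole, pole]
  have rA : Run d [cap 0] [web false 1, web true 1, pole, pole, pole] [pole, pole, pole] :=
    rcap.right [pole, pole, pole]
  generalize hM : arc true 2 ++ [cr 1 true, cr 0 true] = M at *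
  rw [ring_two, hM]
  have l1 : Loc d a m [pole, pole, pole] [pole, pole, pole] 1
      ([cup 0 false 1] ++ (M.map (shift 1) ++ ([cap 0] ++ D)))
      ([cup 0 false 1] ++ (M.map (shift 1) ++ (D.map (shift 2) ++ [cap 0]))) := by
    refine (Loc.refl rC).co ((Loc.refl rM).co ?_)
    simpa [map_shift_zero] using k1
  have l2 : Loc d a m [pole, pole, pole] [pole, pole, pole] 1
      ([cup 0 false 1] ++ ((M.map (shift 1) ++ D.map (shift 2)) ++ [cap 0]))
      ([cup 0 false 1] ++ ((D.map (shift 2) ++ M.map (shift 1)) ++ [cap 0])) := by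
    refine (Loc.refl rC).co (Loc.co ?_ (Loc.refl rA))
    rw [List.map_append, List.map_append, List.length_singleton, map_shift_shift] at b3
    exact b3
  have l3 : Loc d a m [pole, pole, pole] [pole, pole, pole] 1
      (([cup 0 false 1] ++ D.map (shift 2)) ++ (M.map (shift 1) ++ [cap 0]))
      ((D ++ [cup 0 false 1]) ++ (M.map (shift 1) ++ [cap 0])) := by
    refine Loc.co ?_ (Loc.refl (rM.append rA))
    simpa [map_shift_zero] using k2
  simp only [List.append_assoc] at l1 l2 l3 ⊢
  exact l1.tr (l2.tr l3)

/-- The loop around the first two poles is central. -/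
theorem central (ha : a ≠ 0) (hd : (a ^ d) ^ 2 = 1) (h1 : 1 < d) :
    cl d a 3 (ring 0 2 false 1) ∈ Subalgebra.center ℂ (Sk d a 3) := by
  have hring : Run d (ring 0 2 false 1) (poles 3) (poles 3) := by
    have := (loc_comm (m := 3) (D := []) ha hd h1 rfl).1
    simpa using this
  rw [Subalgebra.mem_center_iff]
  intro b
  refine Submodule.span_induction (p := fun b _ => b * cl d a 3 (ring 0 2 false 1) =
    cl d a 3 (ring 0 2 false 1) * b) ?_ ?_ ?_ ?_ (span_cl b)
  · rintro _ ⟨D, hD, rfl⟩
    rw [← cl_append hD hring, ← cl_append hring hD]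
    have := (loc_comm (m := 3) ha hd h1 hD).cl_eq
    rw [one_smul] at this
    exact this.symm
  · simp
  · intro x y _ _ hx hy
    rw [add_mul, mul_add, hx, hy]
  · intro c x _ hx
    rw [smul_mul_assoc, mul_smul_comm, hx]

end Pool.Agent.Helper26.SK
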