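import Mathlib

/-!
# The `SL_d`-skein algebra of a punctured disc

Fix `d ≥ 2`, `m ≥ 0` and a nonzero complex number `a` (this is `q^{1/d}`, so that `q = a ^ d`).  Let
`S` be the disc with `m` punctures.  We look at the thickened surface `S × [0,1]` from the side:
the `m` punctures become `m` vertical *poles*, and a framed web in `S × [0,1]` is given by its
generic projection to a vertical plane (with the blackboard framing), cut into elementary pieces
read from bottom to top.  The webs may pass in front of and behind the poles.  The direction
`[0,1]` is the vertical direction, so that the product of the skein algebra (placing one web above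
the other one) is the concatenation of diagrams.

Webs have edges with weights in `{1, …, d - 1}`, trivalent vertices (two edges of weights `k` and
`l` merge into an edge of weight `k + l`, or an edge of weight `k + l` splits into edges of weights
`k` and `l`), and bivalent vertices with tags (an edge of weight `k` and an edge of weight `d - k`
end at a tag, or come out of a tag), which are the trivalent vertices whose third edge has weight
`d` and is shortened to the tag.
-/

namespace Pool.Agent.Helper26.SK

/-- A strand of a diagram at some level: a pole, or a piece of an edge of the web of weight `k`,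
directed upwards if `u = true` and downwards if `u = false`. -/
inductive Str : Type
  | pole
  | web (u : Bool) (k : ℕ)
  deriving DecidableEq

open Str

/-- The elementary pieces of diagrams, read from bottom to top.  At each level the strands are
numbered `0, 1, 2, …` from left to right.
* `cup i u k` is a local minimum of an edge of weight `k`: it creates two adjacent strands, at the
  positions `i` (with direction `u`) and `i + 1` (with direction `!u`).
* `cap i` is a local maximum: it joins the strands at the positions `i` and `i + 1`.
* `cr i o` is a crossing of the strands at the positions `i` and `i + 1`, at most one of them being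
  a pole.  If `o = true`, the strand going from position `i` (below) to position `i + 1` (above)
  passes in front of the other one; if `o = false`, it passes behind the other one.
* `merge i k l`: the upward strands at the positions `i` and `i + 1`, of weights `k` and `l`, merge
  into an upward strand of weight `k + l` if `k + l < d`; they end at a tag if `k + l = d`.
* `split i k l`: the upward strand of weight `k + l` at the position `i` splits into upward strands
  of weights `k` and `l` if `k + l < d`; these come out of a tag at the position `i` if
  `k + l = d`. -/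
inductive Piece : Type
  | cup (i : ℕ) (u : Bool) (k : ℕ)
  | cap (i : ℕ)
  | cr (i : ℕ) (o : Bool)
  | merge (i k l : ℕ)
  | split (i k l : ℕ)
  deriving DecidableEq

open Piece

/-- The list consisting of one upward strand of weight `k`; this is the empty list if `k = 0` or
`k = d`. -/
def lab (d k : ℕ) : List Str := if 0 < k ∧ k < d then [web true k] else []

/-- The number of strands in `lab d k`. -/
def vis (d k : ℕ) : ℕ := if 0 < k ∧ k < d then 1 else 0

/-- `Step d p s t`: the piece `p` leads from the list of strands `s` (below) to the list of
strands `t` (above). -/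
inductive Step (d : ℕ) : Piece → List Str → List Str → Prop
  | cup (A B : List Str) (u : Bool) (k : ℕ) (h : 0 < k ∧ k < d) :
      Step d (cup A.length u k) (A ++ B) (A ++ [web u k, web (!u) k] ++ B)
  | cap (A B : List Str) (u : Bool) (k : ℕ) :
      Step d (cap A.length) (A ++ [web u k, web (!u) k] ++ B) (A ++ B)
  | cr (A B : List Str) (x y : Str) (o : Bool) (h : ¬ (x = pole ∧ y = pole)) :
      Step d (cr A.length o) (A ++ [x, y] ++ B) (A ++ [y, x] ++ B)
  | merge (A B : List Str) (k l : ℕ) (h : 0 < k ∧ 0 < l ∧ k + l ≤ d) :
      Step d (merge A.length k l) (A ++ [web true k, web true l] ++ B) (A ++ lab d (k + l) ++ B)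
  | split (A B : List Str) (k l : ℕ) (h : 0 < k ∧ 0 < l ∧ k + l ≤ d) :
      Step d (split A.length k l) (A ++ lab d (k + l) ++ B) (A ++ [web true k, web true l] ++ B)

/-- `Run d D s t`: the diagram `D` leads from the strands `s` to the strands `t`. -/
def Run (d : ℕ) : List Piece → List Str → List Str → Prop
  | [], s, t => s = t
  | p :: D, s, t => ∃ r, Step d p s r ∧ Run d D r t

/-- The strands at the bottom and at the top of a diagram of a web in the disc with `m`
punctures. -/
def poles (m : ℕ) : List Str := List.replicate m pole

theorem Run.append {d : ℕ} {D E : List Piece} {s r t : List Str} (h : Run d D s r)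
    (h' : Run d E r t) : Run d (D ++ E) s t := by
  induction D generalizing s with
  | nil => cases h; exact h'
  | cons p D ih =>
    obtain ⟨x, hx, hr⟩ := h
    exact ⟨x, hx, ih hr⟩

/-- Diagrams of framed webs in (disc with `m` punctures) `× [0,1]`; the product is placing the
second one above the first one. -/
def Diag (d m : ℕ) : Submonoid (FreeMonoid Piece) where
  carrier := {D | Run d (FreeMonoid.toList D) (poles m) (poles m)}
  one_mem' := rfl
  mul_mem' h h' := h.append h'

open Classical in
/-- The diagram `D` as an element of the free vector space on all diagrams (and `0` if `D` is not a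
diagram). -/
noncomputable def dg (d m : ℕ) (D : List Piece) : MonoidAlgebra ℂ (Diag d m) :=
  if h : Run d D (poles m) (poles m) then
    MonoidAlgebra.single ⟨FreeMonoid.ofList D, h⟩ 1 else 0

namespace Piece

/-- The position of a piece. -/
def pos : Piece → ℕ
  | cup i _ _ => i
  | cap i => i
  | cr i _ => i
  | merge i _ _ => i
  | split i _ _ => i

/-- The number of strands entering a piece from below. -/
def inn (d : ℕ) : Piece → ℕ
  | cup _ _ _ => 0
  | cap _ => 2
  | cr _ _ => 2
  | merge _ _ _ => 2
  | split _ k l => vis d (k + l)

/-- The number of strands leaving a piece at the top. -/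
def out (d : ℕ) : Piece → ℕ
  | cup _ _ _ => 2
  | cap _ => 0
  | cr _ _ => 2
  | merge _ k l => vis d (k + l)
  | split _ _ _ => 2

/-- The piece moved to the right by `n` positions. -/
def shift (n : ℕ) : Piece → Piece
  | cup i u k => cup (i + n) u k
  | cap i => cap (i + n)
  | cr i o => cr (i + n) o
  | merge i k l => merge (i + n) k l
  | split i k l => split (i + n) k l

end Piece

/-- The local moves generating isotopy of framed webs in (punctured disc) `× [0,1]`. -/
inductive Move (d : ℕ) : List Piece → List Piece → Prop
  /-- pieces far from each other may be interchanged -/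
  | far (x y : Piece) (h : x.pos ≤ y.pos) :
      Move d [x, y.shift (x.out d)] [y.shift (x.inn d), x]
  /-- zigzags may be straightened -/
  | zigR (i : ℕ) (u : Bool) (k : ℕ) : Move d [cup i u k, cap (i + 1)] []
  | zigL (i : ℕ) (u : Bool) (k : ℕ) : Move d [cup (i + 1) u k, cap i] []
  /-- a strand (or pole) may be slid over or under a local minimum -/
  | slideCup (i : ℕ) (u : Bool) (k : ℕ) (o : Bool) :
      Move d [cup i u k, cr (i + 1) o] [cup (i + 1) u k, cr i (!o)]
  /-- a strand (or pole) may be slid over or under a local maximum -/
  | slideCap (i : ℕ) (o : Bool) : Move d [cr i o, cap (i + 1)] [cr (i + 1) (!o), cap i]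
  /-- a strand (or pole) may be slid over or under a merging vertex (or tag) -/
  | slideMerge (i k l : ℕ) (o : Bool) :
      Move d (merge i k l :: (if k + l < d then [cr i o] else []))
        [cr (i + 1) o, cr i o, merge (i + 1) k l]
  /-- a strand (or pole) may be slid over or under a splitting vertex (or tag) -/
  | slideSplit (i k l : ℕ) (o : Bool) :
      Move d ((if k + l < d then [cr i o] else []) ++ [split (i + 1) k l])
        [split i k l, cr (i + 1) o, cr i o]
  /-- second Reidemeister move -/
  | r2 (i : ℕ) (o : Bool) : Move d [cr i o, cr i (!o)] []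
  /-- third Reidemeister move; the hypothesis says that the three strands (one of which may be a
  pole) are at three different depths -/
  | r3 (i : ℕ) (o₁ o₂ o₃ : Bool) (h : ¬ (o₁ = o₃ ∧ o₂ ≠ o₁)) :
      Move d [cr i o₁, cr (i + 1) o₂, cr i o₃] [cr (i + 1) o₃, cr i o₂, cr (i + 1) o₁]
  /-- first Reidemeister move for framed webs: the two curls with the same framing agree -/
  | curl (i : ℕ) (u : Bool) (k : ℕ) (o : Bool) :
      Move d [cup (i + 1) u k, cr i o, cap (i + 1)] [cup i (!u) k, cr (i + 1) o, cap i]
  /-- a vertex (or tag) may be rotated: the two ways of turning a merging vertex upside down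
  agree -/
  | turnMerge (i k l : ℕ) :
      Move d ([cup (i + vis d (k + l)) true k, cup (i + vis d (k + l) + 1) true l,
          merge (i + vis d (k + l)) k l] ++ (if k + l < d then [cap i] else []))
        ([cup i false l, cup (i + 1) false k, merge (i + 2) k l] ++
          (if k + l < d then [cap (i + 2)] else []))
  /-- the two ways of turning a splitting vertex (or tag) upside down agree -/
  | turnSplit (i k l : ℕ) :
      Move d ((if k + l < d then [cup (i + 2) true (k + l)] else []) ++
          [split (i + 2) k l, cap (i + 1), cap i])
        ((if k + l < d then [cup i false (k + l)] else []) ++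
          [split (i + vis d (k + l)) k l, cap (i + vis d (k + l) + 1), cap (i + vis d (k + l))])

/-- The symmetric quantum binomial coefficient for natural numbers. -/
noncomputable def qbinN (q : ℂ) : ℕ → ℕ → ℂ
  | _, 0 => 1
  | 0, _ + 1 => 0
  | n + 1, t + 1 => q ^ (t + 1) * qbinN q n (t + 1) + q⁻¹ ^ (n - t) * qbinN q n t

/-- The symmetric quantum binomial coefficient `[n choose t]` for an integer `n` and a natural
number `t`; it is `[n] [n-1] ⋯ [n-t+1] / [t]!` with `[j] = (q^j - q^{-j}) / (q - q⁻¹)`. -/
noncomputable def qbin (q : ℂ) : ℤ → ℕ → ℂ
  | .ofNat n, t => qbinN q n t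
  | .negSucc n, t => (-1) ^ t * qbinN q (n + t) t

/-- Merging `k` and `l` at the position `i`; nothing if `k = 0` or `l = 0`. -/
def mg (i k l : ℕ) : List Piece := if k = 0 ∨ l = 0 then [] else [merge i k l]

/-- Splitting `k + l` at the position `i`; nothing if `k = 0` or `l = 0`. -/
def sp (i k l : ℕ) : List Piece := if k = 0 ∨ l = 0 then [] else [split i k l]

/-- The ladder rung moving the weight `r` to the right: from weights `(k, l)` to
`(k - r, l + r)`.  It is used for `r ≤ k` and `l + r ≤ d`. -/
def ladE (d k l r : ℕ) : List Piece := sp 0 (k - r) r ++ mg (vis d (k - r)) r l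

/-- The ladder rung moving the weight `s` to the left: from weights `(k, l)` to
`(k + s, l - s)`.  It is used for `s ≤ l` and `k + s ≤ d`. -/
def ladF (d k l s : ℕ) : List Piece := sp (vis d k) s (l - s) ++ mg 0 k s

/-- The web skein relations of Cautis, Kamnitzer and Morrison, with `q = a ^ d`.
`Skein d a s t X Y` means that the formal combinations `X` and `Y` of diagrams leading from `s` to
`t` are identified. -/
inductive Skein (d : ℕ) (a : ℂ) :
    List Str → List Str → List (ℂ × List Piece) → List (ℂ × List Piece) → Prop
  /-- bigons -/
  | digon (k l : ℕ) (h : 0 < k ∧ 0 < l ∧ k + l ≤ d) :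
      Skein d a (lab d (k + l)) (lab d (k + l)) [(1, [split 0 k l, merge 0 k l])]
        [(qbin (a ^ d) (k + l : ℕ) k, [])]
  /-- loops on the right of a strand (circles for `k = 0`) -/
  | loopR (k l : ℕ) (h : 0 < l ∧ l < d ∧ k + l ≤ d) :
      Skein d a (lab d k) (lab d k)
        [(1, [cup (vis d k) true l] ++ mg 0 k l ++ sp 0 k l ++ [cap (vis d k)])]
        [(qbin (a ^ d) (d - k : ℕ) l, [])]
  /-- loops on the left of a strand (circles for `k = 0`) -/
  | loopL (k l : ℕ) (h : 0 < l ∧ l < d ∧ k + l ≤ d) :
      Skein d a (lab d k) (lab d k)
        [(1, [cup 0 false l] ++ mg 1 l k ++ sp 1 l k ++ [cap 0])]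
        [(qbin (a ^ d) (d - k : ℕ) l, [])]
  /-- associativity of merging -/
  | assocMerge (k l j : ℕ) (h : 0 < k ∧ 0 < l ∧ 0 < j ∧ k + l + j ≤ d) :
      Skein d a [web true k, web true l, web true j] (lab d (k + l + j))
        [(1, [merge 0 k l, merge 0 (k + l) j])] [(1, [merge 1 l j, merge 0 k (l + j)])]
  /-- associativity of splitting -/
  | assocSplit (k l j : ℕ) (h : 0 < k ∧ 0 < l ∧ 0 < j ∧ k + l + j ≤ d) :
      Skein d a (lab d (k + l + j)) [web true k, web true l, web true j]
        [(1, [split 0 (k + l) j, split 0 k l])] [(1, [split 0 k (l + j), split 1 l j])]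
  /-- moving a tag to the other side of an edge -/
  | tagMerge (k l : ℕ) (h : 0 < k ∧ 0 < l ∧ k + l = d) :
      Skein d a [web true l] [web false k]
        [(1, [cup 0 false k, merge 1 k l])] [((-1) ^ (k * l), [cup 1 true k, merge 0 l k])]
  /-- moving a tag to the other side of an edge -/
  | tagSplit (k l : ℕ) (h : 0 < k ∧ 0 < l ∧ k + l = d) :
      Skein d a [web false k] [web true l]
        [(1, [split 1 k l, cap 0])] [((-1) ^ (k * l), [split 0 l k, cap 1])]
  /-- square switch relation: first `s` is moved to the left, then `r` to the right -/
  | squareFE (k l r s : ℕ)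
      (h : k ≤ d ∧ l ≤ d ∧ s ≤ l ∧ k + s ≤ d ∧ r ≤ k + s ∧ l - s + r ≤ d) :
      Skein d a (lab d k ++ lab d l) (lab d (k + s - r) ++ lab d (l - s + r))
        [(1, ladF d k l s ++ ladE d (k + s) (l - s) r)]
        (((List.range (min r s + 1)).filter fun t => r ≤ k + t ∧ l + r ≤ d + t).map fun t =>
          (qbin (a ^ d) ((l : ℤ) - k + r - s) t,
            ladE d k l (r - t) ++ ladF d (k - (r - t)) (l + (r - t)) (s - t)))
  /-- square switch relation: first `r` is moved to the right, then `s` to the left -/
  | squareEF (k l r s : ℕ)
      (h : k ≤ d ∧ l ≤ d ∧ r ≤ k ∧ l + r ≤ d ∧ s ≤ l + r ∧ k - r + s ≤ d) :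
      Skein d a (lab d k ++ lab d l) (lab d (k - r + s) ++ lab d (l + r - s))
        [(1, ladE d k l r ++ ladF d (k - r) (l + r) s)]
        (((List.range (min r s + 1)).filter fun t => s ≤ l + t ∧ k + s ≤ d + t).map fun t =>
          (qbin (a ^ d) ((k : ℤ) - l + s - r) t,
            ladF d k l (s - t) ++ ladE d (k + (s - t)) (l - (s - t)) (r - t)))
  /-- the positive crossing of two upward strands, the left one at least as thick -/
  | crossGe (k l : ℕ) (o : Bool) (b : ℂ) (hb : b = if o then a else a⁻¹)
      (h : 0 < l ∧ l ≤ k ∧ k < d) :
      Skein d a [web true k, web true l] [web true l, web true k] [(1, [cr 0 o])]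
        ((List.range (min l (d - k) + 1)).map fun t =>
          ((-1) ^ (l + k * l) * (b ^ d) ^ l * b⁻¹ ^ (k * l) * (-(b ^ d)⁻¹) ^ t,
            ladF d k l t ++ ladE d (k + t) (l - t) (k - l + t)))
  /-- the crossing of two upward strands, the right one at least as thick -/
  | crossLe (k l : ℕ) (o : Bool) (b : ℂ) (hb : b = if o then a else a⁻¹)
      (h : 0 < k ∧ k ≤ l ∧ l < d) :
      Skein d a [web true k, web true l] [web true l, web true k] [(1, [cr 0 o])]
        ((List.range (min k (d - l) + 1)).map fun t =>
          ((-1) ^ (k + k * l) * (b ^ d) ^ k * b⁻¹ ^ (k * l) * (-(b ^ d)⁻¹) ^ t,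
            ladE d k l t ++ ladF d (k - t) (l + t) (l - k + t)))

/-- The formal combination `X`, moved to the right by `n` positions, inserted between the diagrams
`U` and `V`. -/
noncomputable def ins (d m n : ℕ) (U V : List Piece) (X : List (ℂ × List Piece)) :
    MonoidAlgebra ℂ (Diag d m) :=
  (X.map fun x => x.1 • dg d m (U ++ x.2.map (shift n) ++ V)).sum

/-- The relations defining the skein algebra: isotopy and the skein relations. -/
inductive Rel (d : ℕ) (a : ℂ) (m : ℕ) :
    MonoidAlgebra ℂ (Diag d m) → MonoidAlgebra ℂ (Diag d m) → Prop
  | move (U V D E : List Piece) (s t : List Str) (h : Move d D E)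
      (hU : Run d U (poles m) s) (hD : Run d D s t) (hE : Run d E s t)
      (hV : Run d V t (poles m)) :
      Rel d a m (dg d m (U ++ D ++ V)) (dg d m (U ++ E ++ V))
  | skein (U V : List Piece) (A B s t : List Str) (X Y : List (ℂ × List Piece))
      (h : Skein d a s t X Y) (hU : Run d U (poles m) (A ++ s ++ B))
      (hV : Run d V (A ++ t ++ B) (poles m)) :
      Rel d a m (ins d m A.length U V X) (ins d m A.length U V Y)

/-- The `SL_d`-skein algebra of the disc with `m` punctures, where `a = q^{1/d}`. -/
abbrev Sk (d : ℕ) (a : ℂ) (m : ℕ) : Type := RingQuot (Rel d a m)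

/-- The quotient map. -/
noncomputable def toSk (d : ℕ) (a : ℂ) (m : ℕ) :
    MonoidAlgebra ℂ (Diag d m) →ₐ[ℂ] Sk d a m :=
  RingQuot.mkAlgHom ℂ (Rel d a m)

/-- The class of a diagram in the skein algebra. -/
noncomputable def cl (d : ℕ) (a : ℂ) (m : ℕ) (D : List Piece) : Sk d a m :=
  toSk d a m (dg d m D)

/-- The loop of weight `k` around the poles number `j, …, j + p - 1`. -/
def ring (j p : ℕ) (u : Bool) (k : ℕ) : List Piece :=
  [cup j u k] ++ (List.range p).map (fun i => cr (j + 1 + i) true) ++
    (List.range p).reverse.map (fun i => cr (j + 1 + i) true) ++ [cap j]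

/-- The puncture skeins: the loops with any weight and direction around one of the `m` punctures,
and the loops around all `m` punctures (that is, around the outer puncture, if the boundary circle
of the disc is considered as a puncture). -/
def punctureSkeins (d : ℕ) (a : ℂ) (m : ℕ) : Set (Sk d a m) :=
  {x | ∃ j u k, j < m ∧ 0 < k ∧ k < d ∧ x = cl d a m (ring j 1 u k)} ∪
    {x | ∃ u k, 0 < k ∧ k < d ∧ x = cl d a m (ring 0 m u k)}

/-! ### Knots and threading -/

/-- Labellings of the strands of a diagram of a link which are constant along components: `x k` is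
the label of the `k`-th local minimum (counted from `0`), `n` is the number of local minima below
the current level, `s` is the list of labels of the strands at the current level (`none` for
poles). -/
def Labels (x : ℕ → Bool) : List Piece → ℕ → List (Option Bool) → Prop
  | [], _, _ => True
  | cup i _ _ :: D, n, s => Labels x D (n + 1) (s.take i ++ some (x n) :: some (x n) :: s.drop i)
  | cap i :: D, n, s => s[i]? = s[i + 1]? ∧ Labels x D n (s.take i ++ s.drop (i + 2))
  | cr i _ :: D, n, s =>
    match s.drop i with
    | y :: z :: s' => Labels x D n (s.take i ++ z :: y :: s')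
    | _ => False
  | _, _, _ => False

/-- The number of local minima. -/
def minima (D : List Piece) : ℕ :=
  (D.filter fun p => match p with | cup _ _ _ => true | _ => false).length

/-- `L` is the diagram of a link in (disc with `m` punctures) `× [0,1]`, all strands having weight
one. -/
def IsLink (d m : ℕ) (L : List Piece) : Prop :=
  Run d L (poles m) (poles m) ∧
    ∀ p ∈ L, match p with
      | cup _ _ k => k = 1
      | cap _ => True
      | cr _ _ => True
      | merge _ _ _ => False
      | split _ _ _ => False

/-- `L` is the diagram of a knot in (disc with `m` punctures) `× [0,1]`: it is a link diagram with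
at least one strand, and every labelling which is constant along components is constant. -/
def IsKnot (d m : ℕ) (L : List Piece) : Prop :=
  IsLink d m L ∧ 0 < minima L ∧
    ∀ x : ℕ → Bool, Labels x L 0 (List.replicate m none) →
      ∀ i < minima L, ∀ j < minima L, x i = x j

/-- The number of strands replacing a strand, when `N` parallel copies are taken. -/
def width (N : ℕ) : Str → ℕ
  | pole => 1
  | web _ _ => N

/-- The number of strands replacing the first `i` strands. -/
def off (N : ℕ) (s : List Str) (i : ℕ) : ℕ := ((s.take i).map (width N)).sum

/-- The crossing of `n₁` parallel strands, at the positions `i, …, i + n₁ - 1`, with `n₂` parallel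
strands, at the positions `i + n₁, …, i + n₁ + n₂ - 1`. -/
def grid (i n₁ n₂ : ℕ) (o : Bool) : List Piece :=
  (List.range n₁).reverse.flatMap fun x => (List.range n₂).map fun y => cr (i + x + y) o

/-- Parallel copies of a link `L`, with weights `w`, in the blackboard framing: every strand is
replaced by parallel strands whose weights are, from left to right, `w` for an upward strand and
the reversal of `w` for a downward strand.  The second argument is the list of strands of `L` at
the bottom of the diagram. -/
def cable (w : List ℕ) : List Piece → List Str → List Piece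
  | [], _ => []
  | cup i u _ :: D, s =>
    (if u then w else w.reverse).mapIdx (fun j k => cup (off w.length s i + j) u k) ++
      cable w D (s.take i ++ web u 1 :: web (!u) 1 :: s.drop i)
  | cap i :: D, s =>
    (List.range w.length).reverse.map (fun j => cap (off w.length s i + j)) ++
      cable w D (s.take i ++ s.drop (i + 2))
  | cr i o :: D, s =>
    match s.drop i with
    | x :: y :: s' =>
      grid (off w.length s i) (width w.length x) (width w.length y) o ++
        cable w D (s.take i ++ y :: x :: s')
    | _ => []
  | _, _ => []

/-- The list of weights belonging to the monomial `e_1 ^ i_1 ⋯ e_{d-1} ^ i_{d-1}`, that is, `i_k`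
copies of the weight `k`; the variable `e_{j+1}` is `MvPolynomial.X j`. -/
def weights (d : ℕ) (α : Fin (d - 1) →₀ ℕ) : List ℕ :=
  (List.finRange (d - 1)).flatMap fun j => List.replicate (α j) (j + 1)

/-- The skein `L^{[P]}` obtained by threading the polynomial `P` along `L`. -/
noncomputable def thread (d : ℕ) (a : ℂ) (m : ℕ) (L : List Piece)
    (P : MvPolynomial (Fin (d - 1)) ℤ) : Sk d a m :=
  ∑ α ∈ P.support, ((P.coeff α : ℤ) : ℂ) • cl d a m (cable (weights d α) L (poles m))

/-- `P` is the power elementary polynomial `P_d^{(n,i)}`: substituting the elementary symmetric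
polynomials `E_d^{(1)}, …, E_d^{(d)}` for the variables `e_1, …, e_d` of `P` gives the `i`-th
elementary symmetric polynomial of the `n`-th powers of the variables. -/
def IsPowerElementary (d n i : ℕ) (P : MvPolynomial (Fin d) ℤ) : Prop :=
  MvPolynomial.aeval (fun j : Fin d => MvPolynomial.esymm (Fin d) ℤ (j + 1)) P =
    ∑ J ∈ Finset.powersetCard i (Finset.univ : Finset (Fin d)),
      ∏ j ∈ J, (MvPolynomial.X j : MvPolynomial (Fin d) ℤ) ^ n

/-- Setting the last variable `e_d` equal to `1`. -/
noncomputable def hat (d : ℕ) (P : MvPolynomial (Fin d) ℤ) : MvPolynomial (Fin (d - 1)) ℤ :=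
  MvPolynomial.aeval (fun j : Fin d =>
    if h : (j : ℕ) < d - 1 then MvPolynomial.X (⟨j, h⟩ : Fin (d - 1)) else 1) P

/-- The skeins obtained by threading the reduced power elementary polynomials along knots. -/
def threadSkeins (d : ℕ) (a : ℂ) (m n : ℕ) : Set (Sk d a m) :=
  {x | ∃ L P i, IsKnot d m L ∧ 0 < i ∧ i < d ∧ IsPowerElementary d n i P ∧
    x = thread d a m L (hat d P)}

/-- The center of the skein algebra. -/
def center (d : ℕ) (a : ℂ) (m : ℕ) : Set (Sk d a m) := {x | ∀ y : Sk d a m, x * y = y * x}

/-- The subalgebra generated by all puncture skeins and all skeins obtained by threading the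
reduced power elementary polynomials along knots. -/
def generated (d : ℕ) (a : ℂ) (m n : ℕ) : Set (Sk d a m) :=
  ↑(Algebra.adjoin ℂ (punctureSkeins d a m ∪ threadSkeins d a m n))

end Pool.Agent.Helper26.SK
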