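import Pool.Agent.Helper26.SK.EvalDefs
import Pool.Agent.Helper26.SK.Basic

/-!
# Generic properties of the evaluation
-/

namespace Pool.Agent.Helper26.SK

open Str Piece

variable {ζ : ℂ}

theorem base_shift (p : Piece) (n : ℕ) (s : List CS) (k : Cont) :
    base ζ (p.shift n) s k = base ζ p s k := by
  cases p <;> rfl

theorem inn_shift (d : ℕ) (p : Piece) (n : ℕ) : (p.shift n).inn d = p.inn d := by
  cases p <;> rfl

theorem out_shift (d : ℕ) (p : Piece) (n : ℕ) : (p.shift n).out d = p.out d := by
  cases p <;> rfl

theorem pos_shift (p : Piece) (n : ℕ) : (p.shift n).pos = p.pos + n := by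
  cases p <;> rfl

theorem act_zero {p : Piece} (h : p.pos = 0) (s : List CS) (k : Cont) :
    act ζ p s k = base ζ p s k := by
  rw [act, h, actAt]

theorem act_shift_one_cons (p : Piece) (c : CS) (s : List CS) (k : Cont) :
    act ζ (p.shift 1) (c :: s) k = act ζ p s (fun t => k (c :: t)) := by
  have : base ζ (p.shift 1) = base ζ p := by
    funext s k; exact base_shift p 1 s k
  rw [act, act, this, pos_shift, actAt]

theorem act_shift_one_nil (p : Piece) (k : Cont) : act ζ (p.shift 1) [] k = 0 := by
  rw [act, pos_shift, actAt]

theorem act_shift (p : Piece) (A s : List CS) (k : Cont) :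
    act ζ (p.shift A.length) (A ++ s) k = act ζ p s (fun t => k (A ++ t)) := by
  induction A generalizing k with
  | nil => rw [List.length_nil, shift_zero]; rfl
  | cons c A ih =>
    rw [List.length_cons, ← shift_shift, List.cons_append, act_shift_one_cons, ih]
    rfl

theorem act_shift_of_length (p : Piece) {n : ℕ} (A s : List CS) (h : A.length = n) (k : Cont) :
    act ζ (p.shift n) (A ++ s) k = act ζ p s (fun t => k (A ++ t)) := by
  rw [← h, act_shift]

theorem act_shift_short (p : Piece) {n : ℕ} (s : List CS) (h : s.length < n) (k : Cont) :
    act ζ (p.shift n) s k = 0 := by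
  induction n generalizing s k with
  | zero => omega
  | succ n ih =>
    rw [← shift_shift]
    cases s with
    | nil => rw [act_shift_one_nil]
    | cons c s =>
      rw [act_shift_one_cons]
      exact ih s (by simpa using h) _

theorem baseLoc_add (p : Piece) (s : List CS) (k k' : Cont) :
    baseLoc p s (fun t => k t + k' t) = baseLoc p s k + baseLoc p s k' := by
  unfold baseLoc
  split_ifs
  · simp only [mul_add]
    rw [List.sum_map_add]
  · simp

theorem baseLoc_mul (p : Piece) (s : List CS) (c : ℂ) (k : Cont) :
    baseLoc p s (fun t => c * k t) = c * baseLoc p s k := by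
  unfold baseLoc
  split_ifs
  · rw [← List.sum_map_mul_left]
    congr 1
    apply List.map_congr_left
    intro x _
    ring
  · simp

theorem base_add (p : Piece) (s : List CS) (k k' : Cont) :
    base ζ p s (fun t => k t + k' t) = base ζ p s k + base ζ p s k' := by
  cases p with
  | cr i o =>
    match s with
    | [] => simp [base, baseCr]
    | [x] => simp [base, baseCr]
    | x :: y :: s => simp only [base, baseCr]; ring
  | _ => exact baseLoc_add _ s k k'

theorem base_mul (p : Piece) (s : List CS) (c : ℂ) (k : Cont) :
    base ζ p s (fun t => c * k t) = c * base ζ p s k := by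
  cases p with
  | cr i o =>
    match s with
    | [] => simp [base, baseCr]
    | [x] => simp [base, baseCr]
    | x :: y :: s => simp only [base, baseCr]; ring
  | _ => exact baseLoc_mul _ s c k

theorem act_add (p : Piece) (s : List CS) (k k' : Cont) :
    act ζ p s (fun t => k t + k' t) = act ζ p s k + act ζ p s k' := by
  unfold act
  generalize p.pos = i
  induction i generalizing s k k' with
  | zero => exact base_add p s k k'
  | succ i ih =>
    match s with
    | [] => simp [actAt]
    | c :: s => exact ih s _ _

theorem act_mul (p : Piece) (s : List CS) (c : ℂ) (k : Cont) :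
    act ζ p s (fun t => c * k t) = c * act ζ p s k := by
  unfold act
  generalize p.pos = i
  induction i generalizing s k with
  | zero => exact base_mul p s c k
  | succ i ih =>
    match s with
    | [] => simp [actAt]
    | c' :: s => exact ih s _

theorem act_zero_cont (p : Piece) (s : List CS) : act ζ p s (fun _ => 0) = 0 := by
  have := act_mul (ζ := ζ) p s 0 (fun _ => 0)
  simpa using this

theorem act_sum {ι : Type} (p : Piece) (s : List CS) (X : List ι) (c : ι → ℂ) (k : ι → Cont) :
    act ζ p s (fun t => (X.map fun x => c x * k x t).sum) =
      (X.map fun x => c x * act ζ p s (k x)).sum := by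
  induction X with
  | nil => simpa using act_zero_cont p s
  | cons x X ih =>
    simp only [List.map_cons, List.sum_cons]
    rw [act_add p s (fun t => c x * k x t), act_mul, ih]

theorem actW_append (D E : List Piece) (s : List CS) (k : Cont) :
    actW ζ (D ++ E) s k = actW ζ D s (fun t => actW ζ E t k) := by
  induction D generalizing s with
  | nil => rfl
  | cons p D ih =>
    simp only [List.cons_append, actW, ih]

theorem actW_mul (D : List Piece) (s : List CS) (c : ℂ) (k : Cont) :
    actW ζ D s (fun t => c * k t) = c * actW ζ D s k := by
  induction D generalizing s with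
  | nil => rfl
  | cons p D ih =>
    simp only [actW, ih]
    exact act_mul p s c _

theorem actW_add (D : List Piece) (s : List CS) (k k' : Cont) :
    actW ζ D s (fun t => k t + k' t) = actW ζ D s k + actW ζ D s k' := by
  induction D generalizing s with
  | nil => rfl
  | cons p D ih =>
    simp only [actW, ih]
    exact act_add p s _ _

theorem actW_zero_cont (D : List Piece) (s : List CS) : actW ζ D s (fun _ => 0) = 0 := by
  have := actW_mul (ζ := ζ) D s 0 (fun _ => 0)
  simpa using this

theorem actW_sum {ι : Type} (D : List Piece) (s : List CS) (X : List ι) (c : ι → ℂ)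
    (k : ι → Cont) : actW ζ D s (fun t => (X.map fun x => c x * k x t).sum) =
      (X.map fun x => c x * actW ζ D s (k x)).sum := by
  induction X with
  | nil => simpa using actW_zero_cont D s
  | cons x X ih =>
    simp only [List.map_cons, List.sum_cons]
    rw [actW_add D s (fun t => c x * k x t), actW_mul, ih]

theorem actW_shift (D : List Piece) (A s : List CS) (k : Cont) :
    actW ζ (D.map (shift A.length)) (A ++ s) k = actW ζ D s (fun t => k (A ++ t)) := by
  induction D generalizing s with
  | nil => rfl
  | cons p D ih =>
    simp only [List.map_cons, actW]
    rw [act_shift]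
    congr 1
    funext t
    exact ih t

/-- The lists of strands produced by `loc` have the right length. -/
theorem length_of_mem_loc (p : Piece) (s : List CS) (x : ℤ × List CS) (hx : x ∈ loc p s) :
    x.2.length = p.out 3 := by
  cases p with
  | cup i u k =>
    simp only [loc, List.mem_map] at hx
    obtain ⟨S, -, rfl⟩ := hx
    rfl
  | cap i =>
    simp only [loc] at hx
    unfold locCap at hx
    split at hx
    · split_ifs at hx
      · simp only [List.mem_singleton] at hx
        subst hx
        rfl
      · simp at hx
    · simp at hx
  | cr i o => simp [loc] at hx
  | merge i k l =>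
    simp only [loc] at hx
    unfold locMerge at hx
    split at hx
    · split_ifs at hx with h1 h2
      · simp only [List.mem_singleton] at hx
        subst hx
        simp [Piece.out, h2]
      · simp only [List.mem_singleton] at hx
        subst hx
        simp only [Piece.out, vis] at h2 ⊢
        split_ifs at h2 ⊢ <;> simp_all
      · simp at hx
    · simp at hx
  | split i k l =>
    simp only [loc] at hx
    unfold locSplit at hx
    split at hx
    · split_ifs at hx
      · simp only [List.mem_map] at hx
        obtain ⟨S, -, rfl⟩ := hx
        rfl
      · simp at hx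
    · split_ifs at hx
      · simp only [List.mem_map] at hx
        obtain ⟨S, -, rfl⟩ := hx
        rfl
      · simp at hx
    · simp at hx

/-- Pieces far from each other. -/
theorem act_far (x y : Piece) (h : x.pos ≤ y.pos) (s : List CS) (k : Cont) :
    act ζ x s (fun t => act ζ (y.shift (x.out 3)) t k) =
      act ζ (y.shift (x.inn 3)) s (fun t => act ζ x t k) := by
  obtain ⟨i, hi⟩ : ∃ i, x.pos = i := ⟨_, rfl⟩
  induction i generalizing x y s k with
  | zero =>
    rcases lt_or_ge s.length (x.inn 3) with hs | hs
    · rw [act_shift_short y s hs, act_zero hi]
      cases x with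
      | cr i o =>
        match s with
        | [] => rfl
        | [_] => rfl
        | _ :: _ :: _ =>
          simp only [List.length_cons, Piece.inn] at hs
          omega
      | _ => exact if_neg (not_le.2 hs)
    · obtain ⟨p, r, rfl, hp⟩ : ∃ p r, s = p ++ r ∧ p.length = x.inn 3 :=
        ⟨s.take (x.inn 3), s.drop (x.inn 3), (List.take_append_drop _ _).symm,
          List.length_take_of_le hs⟩
      rw [act_shift_of_length y p r hp, act_zero hi]
      cases x with
      | cr i o =>
        match p with
        | [a, b] =>
          change _ * act ζ (y.shift 2) ([b, a] ++ r) k = _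
          rw [act_shift_of_length (n := 2) y [b, a] r rfl, ← act_mul]
          congr 1
          funext t
          rw [act_zero hi]
          rfl
        | [] => simp [Piece.inn] at hp
        | [_] => simp [Piece.inn] at hp
        | _ :: _ :: _ :: _ => simp [Piece.inn] at hp
      | _ =>
        simp only [base, act_zero hi]
        unfold baseLoc
        simp only [List.length_append, hp, le_add_iff_nonneg_right, zero_le, ↓reduceIte,
          List.take_left' hp, List.drop_left' hp]
        rw [act_sum]
        congr 1
        apply List.map_congr_left
        intro z hz
        rw [act_shift_of_length y z.2 r (length_of_mem_loc _ _ z hz)]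
  | succ i ih =>
    obtain ⟨x', rfl, hx'⟩ : ∃ x' : Piece, x = x'.shift 1 ∧ x'.pos = i := by
      cases x with
      | cup j u c => cases j with
        | zero => simp [Piece.pos] at hi
        | succ j => exact ⟨cup j u c, rfl, by simpa [Piece.pos] using hi⟩
      | cap j => cases j with
        | zero => simp [Piece.pos] at hi
        | succ j => exact ⟨cap j, rfl, by simpa [Piece.pos] using hi⟩
      | cr j o => cases j with
        | zero => simp [Piece.pos] at hi
        | succ j => exact ⟨cr j o, rfl, by simpa [Piece.pos] using hi⟩
      | merge j c l => cases j with
        | zero => simp [Piece.pos] at hi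
        | succ j => exact ⟨merge j c l, rfl, by simpa [Piece.pos] using hi⟩
      | split j c l => cases j with
        | zero => simp [Piece.pos] at hi
        | succ j => exact ⟨split j c l, rfl, by simpa [Piece.pos] using hi⟩
    obtain ⟨y', rfl⟩ : ∃ y' : Piece, y = y'.shift 1 := by
      rw [hi] at h
      cases y with
      | cup j u c => cases j with
        | zero => simp [Piece.pos] at h
        | succ j => exact ⟨cup j u c, rfl⟩
      | cap j => cases j with
        | zero => simp [Piece.pos] at h
        | succ j => exact ⟨cap j, rfl⟩
      | cr j o => cases j with
        | zero => simp [Piece.pos] at h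
        | succ j => exact ⟨cr j o, rfl⟩
      | merge j c l => cases j with
        | zero => simp [Piece.pos] at h
        | succ j => exact ⟨merge j c l, rfl⟩
      | split j c l => cases j with
        | zero => simp [Piece.pos] at h
        | succ j => exact ⟨split j c l, rfl⟩
    have e : ∀ n, (y'.shift 1).shift n = (y'.shift n).shift 1 := fun n => by
      rw [shift_shift, shift_shift, Nat.add_comm]
    rw [inn_shift, out_shift, e, e]
    match s with
    | [] => rw [act_shift_one_nil, act_shift_one_nil]
    | c :: s =>
      rw [act_shift_one_cons, act_shift_one_cons]
      simp only [act_shift_one_cons]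
      exact ih x' y' (by rw [pos_shift, pos_shift] at h; omega) s (fun t => k (c :: t)) hx'

end Pool.Agent.Helper26.SK
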