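import Pool.Agent.Helper26.SK.Defs

/-!
# The evaluation of diagrams at `d = 3`, `q = 1`, `q^{1/3} = ζ` a primitive cube root of unity

Strands of weight `k` are coloured by the subsets of `{0,1,2}` with `k` elements (bit masks), the
poles act by diagonal matrices on the webs passing behind them.
-/

namespace Pool.Agent.Helper26.SK

open Str Piece

/-- Coloured strands.  The pole `pole c e` acts by the diagonal matrix with the entries
`ζ ^ (c + e i)`, `i = 0, 1, 2`. -/
inductive CS : Type
  | pole (c e : ZMod 3)
  | web (u : Bool) (S : Fin 8)
  deriving DecidableEq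

/-- The number of elements. -/
def card : Fin 8 → ℕ := ![0, 1, 1, 2, 1, 2, 2, 3]

/-- The sum of the elements, modulo three. -/
def sig : Fin 8 → ZMod 3 := ![0, 0, 1, 1, 2, 2, 0, 0]

/-- The number of pairs `(i, j)` with `i` in `S`, `j` in `T` and `i < j`. -/
def ell (S T : Fin 8) : ℕ :=
  (if S.val.testBit 0 ∧ T.val.testBit 1 then 1 else 0) +
  (if S.val.testBit 0 ∧ T.val.testBit 2 then 1 else 0) +
  (if S.val.testBit 1 ∧ T.val.testBit 2 then 1 else 0)

/-- The type of a coloured strand. -/
def ty : CS → Str
  | .pole _ _ => Str.pole
  | .web u S => Str.web u (card S)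

/-- The exponent of the character of a pole. -/
def chi (c e : ZMod 3) (S : Fin 8) : ZMod 3 := c * (card S : ZMod 3) + e * sig S

/-- The exponent of a crossing. -/
def cx (o : Bool) : CS → CS → ZMod 3
  | .web u S, .web u' T =>
    if (u == u') == o then -((card S : ZMod 3) * (card T : ZMod 3))
    else (card S : ZMod 3) * (card T : ZMod 3)
  | .web u S, .pole c e => if o then 0 else if u then chi c e S else -chi c e S
  | .pole c e, .web u S => if o then (if u then -chi c e S else chi c e S) else 0
  | .pole _ _, .pole _ _ => 0

/-- The powers of `ζ`. -/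
def zp (ζ : ℂ) (e : ZMod 3) : ℂ := ζ ^ e.val

/-- The action of a local maximum. -/
def locCap : List CS → List (ℤ × List CS)
  | [.web u S, .web u' T] => if u' = !u ∧ S = T then [(1, [])] else []
  | _ => []

/-- The action of a merging vertex. -/
def locMerge (k l : ℕ) : List CS → List (ℤ × List CS)
  | [.web true S, .web true T] =>
    if card S = k ∧ card T = l ∧ S &&& T = 0 then
      [((-1) ^ ell S T, if vis 3 (k + l) = 1 then [CS.web true (S ||| T)] else [])] else []
  | _ => []

/-- The action of a splitting vertex. -/
def locSplit (k l : ℕ) : List CS → List (ℤ × List CS)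
  | [] =>
    if k + l = 3 then
      ((List.finRange 8).filter fun S => card S = k).map fun S =>
        ((-1) ^ (k * l + ell (7 - S) S), [CS.web true S, CS.web true (7 - S)])
    else []
  | [.web true U] =>
    if card U = k + l then
      ((List.finRange 8).filter fun S => card S = k ∧ S &&& U = S).map fun S =>
        ((-1) ^ (k * l + ell (U - S) S), [CS.web true S, CS.web true (U - S)])
    else []
  | _ => []

/-- The action of a piece without its position, on the strands entering it (for all pieces except
crossings). -/
def loc : Piece → List CS → List (ℤ × List CS)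
  | cup _ u k, _ =>
    ((List.finRange 8).filter fun S => card S = k).map fun S => (1, [CS.web u S, CS.web (!u) S])
  | cap _, s => locCap s
  | cr _ _, _ => []
  | merge _ k l, s => locMerge k l s
  | split _ k l, s => locSplit k l s

/-- Functions on the set of lists of coloured strands. -/
abbrev Cont : Type := List CS → ℂ

/-- The action of a crossing at the position zero. -/
noncomputable def baseCr (ζ : ℂ) (o : Bool) : List CS → Cont → ℂ
  | x :: y :: s, k => zp ζ (cx o x y) * k (y :: x :: s)
  | _, _ => 0

/-- The action of a piece which is not a crossing at the position zero. -/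
noncomputable def baseLoc (p : Piece) (s : List CS) (k : Cont) : ℂ :=
  if p.inn 3 ≤ s.length then
    ((loc p (s.take (p.inn 3))).map fun x => (x.1 : ℂ) * k (x.2 ++ s.drop (p.inn 3))).sum
  else 0

/-- The action of a piece at the position zero. -/
noncomputable def base (ζ : ℂ) : Piece → List CS → Cont → ℂ
  | cup i u c, s, k => baseLoc (cup i u c) s k
  | cap i, s, k => baseLoc (cap i) s k
  | cr _ o, s, k => baseCr ζ o s k
  | merge i c l, s, k => baseLoc (merge i c l) s k
  | split i c l, s, k => baseLoc (split i c l) s k

/-- Action at a position. -/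
def actAt (f : List CS → Cont → ℂ) : ℕ → List CS → Cont → ℂ
  | 0, s, k => f s k
  | _ + 1, [], _ => 0
  | i + 1, c :: s, k => actAt f i s (fun s' => k (c :: s'))

/-- The action of a piece. -/
noncomputable def act (ζ : ℂ) (p : Piece) (s : List CS) (k : Cont) : ℂ :=
  actAt (base ζ p) p.pos s k

/-- The action of a diagram. -/
noncomputable def actW (ζ : ℂ) : List Piece → List CS → Cont → ℂ
  | [], s, k => k s
  | p :: D, s, k => act ζ p s (fun t => actW ζ D t k)

/-- The value of a diagram, the poles being coloured by `P`. -/
noncomputable def ev (ζ : ℂ) (P : List CS) (D : List Piece) : ℂ := actW ζ D P (fun _ => 1)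

end Pool.Agent.Helper26.SK
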