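import Pool.Agent.Helper26.SK.Steps

/-!
# Strands passing in front of and behind a diagram
-/

namespace Pool.Agent.Helper26.SK

set_option linter.unusedSimpArgs false

open Str Piece

variable {d : ℕ} {a : ℂ} {m : ℕ}

/-- The first strand passes across `n` strands, in front of them if `σ = true` and behind them if
`σ = false`. -/
def arc (σ : Bool) : ℕ → List Piece
  | 0 => []
  | n + 1 => arc σ n ++ [cr n σ]

theorem arc_one (σ : Bool) : arc σ 1 = [cr 0 σ] := rfl

theorem arc_two (σ : Bool) : arc σ 2 = [cr 0 σ, cr 1 σ] := rfl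

theorem arc_add (σ : Bool) (n k : ℕ) : arc σ (n + k) = arc σ n ++ (arc σ k).map (shift n) := by
  induction k with
  | zero => simp [arc]
  | succ k ih =>
    rw [← Nat.add_assoc, arc, ih, arc]
    simp [Piece.shift, Nat.add_comm]

theorem run_arc {v : Str} (hv : v ≠ pole) (σ : Bool) (X : List Str) :
    Run d (arc σ X.length) (v :: X) (X ++ [v]) := by
  induction X using List.reverseRecOn with
  | nil => rfl
  | append_singleton X x ih =>
    rw [List.length_append, List.length_singleton, arc]
    refine (ih.right [x]).append ⟨X ++ [x, v], ?_, by simp [Run]⟩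
    have := Step.cr (d := d) X [] v x σ (fun h => hv h.1)
    simpa using this

theorem run_arc' {v : Str} (hv : v ≠ pole) (σ : Bool) (X : List Str) {n : ℕ}
    (hn : n = X.length) : Run d (arc σ n) (v :: X) (X ++ [v]) := hn ▸ run_arc hv σ X

theorem Step.pos_le {p : Piece} {s t : List Str} (h : Step d p s t) :
    ∃ n, s.length = n + p.inn d ∧ t.length = n + p.out d ∧ p.pos ≤ n := by
  cases h with
  | cup A B u k h => exact ⟨A.length + B.length, by simp [Piece.inn],
      by simp [Piece.out]; omega, by simp [Piece.pos]⟩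
  | cap A B u k => exact ⟨A.length + B.length, by simp [Piece.inn]; omega,
      by simp [Piece.out], by simp [Piece.pos]⟩
  | cr A B x y o h => exact ⟨A.length + B.length, by simp [Piece.inn]; omega,
      by simp [Piece.out]; omega, by simp [Piece.pos]⟩
  | merge A B k l h => exact ⟨A.length + B.length, by simp [Piece.inn]; omega,
      by simp [Piece.out, length_lab]; omega, by simp [Piece.pos]⟩
  | split A B k l h => exact ⟨A.length + B.length, by simp [Piece.inn, length_lab]; omega,
      by simp [Piece.out]; omega, by simp [Piece.pos]⟩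

theorem pos_shift' (p : Piece) (n : ℕ) : (p.shift n).pos = p.pos + n := by
  cases p <;> rfl

/-- Two pieces next to each other may be interchanged. -/
theorem far_step {x y : Piece} {X Y s t : List Str} (hx : Step d x X Y) (hy : Step d y s t) :
    Loc d a m (X ++ s) (Y ++ t) 1 [x, y.shift Y.length] [y.shift X.length, x] := by
  obtain ⟨n, hX, hY, hn⟩ := hx.pos_le
  have hM := Move.far (d := d) x (y.shift n) (by rw [pos_shift']; omega)
  rw [shift_shift, shift_shift, ← hX, ← hY] at hM
  refine Loc.iso hM ?_ ?_
  · exact (hx.run.right s).append (hy.run.left Y)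
  · exact (hy.run.left X).append (hx.run.right t)

/-- interchange of a piece and a word -/
theorem inter1 {x : Piece} {E : List Piece} {X Y s t : List Str} (hx : Step d x X Y)
    (hE : Run d E s t) :
    Loc d a m (X ++ s) (Y ++ t) 1 ([x] ++ E.map (shift Y.length))
      (E.map (shift X.length) ++ [x]) := by
  induction E generalizing s with
  | nil =>
    cases hE
    exact Loc.refl (hx.run.right _)
  | cons y E ih =>
    obtain ⟨r, hy, hE⟩ := hE
    have h1 := (far_step (a := a) (m := m) hx hy).co
      (Loc.refl (a := a) (m := m) (hE.left Y))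
    have h2 := (Loc.refl (a := a) (m := m) (hy.run.left X)).co (ih hE)
    exact h1.tr h2

/-- Two diagrams next to each other may be interchanged. -/
theorem inter {D E : List Piece} {X Y s t : List Str} (hD : Run d D X Y) (hE : Run d E s t) :
    Loc d a m (X ++ s) (Y ++ t) 1 (D ++ E.map (shift Y.length))
      (E.map (shift X.length) ++ D) := by
  induction D generalizing X with
  | nil =>
    cases hD
    simpa using Loc.refl (a := a) (m := m) (hE.left _)
  | cons x D ih =>
    obtain ⟨Z, hx, hD⟩ := hD
    have h1 := (Loc.refl (a := a) (m := m) (hx.run.right s)).co (ih hD)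
    have h2 := (inter1 (a := a) (m := m) hx hE).co (Loc.refl (a := a) (m := m) (hD.right t))
    rw [List.append_assoc] at h2
    have := h1.tr (by simpa using h2)
    simpa using this

theorem inter' {D E : List Piece} {X Y s t : List Str} {n k : ℕ} (hD : Run d D X Y)
    (hE : Run d E s t) (hn : n = Y.length) (hk : k = X.length) :
    Loc d a m (X ++ s) (Y ++ t) 1 (D ++ E.map (shift n)) (E.map (shift k) ++ D) := by
  subst hn hk; exact inter hD hE

/-- A strand `v` passes in front of or behind the diagram `D`. -/
def Nat' (d : ℕ) (a : ℂ) (m : ℕ) (σ : Bool) (v : Str) (D : List Piece) (s t : List Str) : Prop :=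
  Loc d a m (v :: s) (t ++ [v]) 1 (D.map (shift 1) ++ arc σ t.length) (arc σ s.length ++ D)

section

variable {σ : Bool} {v : Str} {D : List Piece} {s t : List Str}

theorem Nat'.left (hv : v ≠ pole) (hD : Run d D s t) (h : Nat' d a m σ v D s t) (A : List Str) :
    Nat' d a m σ v (D.map (shift A.length)) (A ++ s) (A ++ t) := by
  unfold Nat' at h ⊢
  rw [List.length_append, List.length_append, arc_add, arc_add, map_shift_shift]
  have h1 : Loc d a m (v :: (A ++ s)) (A ++ v :: t) 1
      (D.map (shift (A.length + 1)) ++ arc σ A.length)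
      (arc σ A.length ++ D.map (shift (A.length + 1))) := by
    have := (inter (a := a) (m := m) (run_arc (d := d) hv σ A) hD).sy
    simpa using this
  have h2 : Loc d a m (A ++ v :: t) (A ++ t ++ [v]) 1 ((arc σ t.length).map (shift A.length))
      ((arc σ t.length).map (shift A.length)) :=
    Loc.refl (by simpa using (run_arc (d := d) hv σ t).left A)
  have h3 : Loc d a m (v :: (A ++ s)) (A ++ v :: s) 1 (arc σ A.length) (arc σ A.length) :=
    Loc.refl (by simpa using (run_arc (d := d) hv σ A).right s)
  have h4 := h.left A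
  have h5 := h1.co h2
  have h6 := h3.co h4
  simp only [List.map_append, map_shift_shift, List.append_assoc, Nat.add_comm 1] at h5 h6 ⊢
  exact h5.tr h6

theorem Nat'.right (hv : v ≠ pole) (hD : Run d D s t) (h : Nat' d a m σ v D s t) (B : List Str) :
    Nat' d a m σ v D (s ++ B) (t ++ B) := by
  unfold Nat' at h ⊢
  rw [List.length_append, List.length_append, arc_add, arc_add]
  have h1 := h.right B
  have h2 : Loc d a m (t ++ v :: B) (t ++ B ++ [v]) 1 ((arc σ B.length).map (shift t.length))
      ((arc σ B.length).map (shift t.length)) :=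
    Loc.refl (by simpa using (run_arc (d := d) hv σ B).left t)
  have h3 : Loc d a m (v :: (s ++ B)) (s ++ v :: B) 1 (arc σ s.length) (arc σ s.length) :=
    Loc.refl (by simpa using (run_arc (d := d) hv σ s).right B)
  have h4 : Loc d a m (s ++ v :: B) (t ++ B ++ [v]) 1
      (D ++ (arc σ B.length).map (shift t.length))
      ((arc σ B.length).map (shift s.length) ++ D) := by
    have := inter (a := a) (m := m) hD (run_arc (d := d) hv σ B)
    simpa using this
  have h5 := (show Loc d a m (v :: (s ++ B)) (t ++ v :: B) 1 _ _ by simpa using h1).co h2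
  have h6 := h3.co h4
  simp only [List.append_assoc] at h5 h6 ⊢
  exact h5.tr h6

/-- composition -/
theorem Nat'.comp {D' : List Piece} {r : List Str} (hD : Run d D s t) (hD' : Run d D' t r)
    (h : Nat' d a m σ v D s t) (h' : Nat' d a m σ v D' t r) :
    Nat' d a m σ v (D ++ D') s r := by
  unfold Nat' at h h' ⊢
  have h1 : Loc d a m (v :: s) (r ++ [v]) 1 (D.map (shift 1) ++ (D'.map (shift 1) ++
      arc σ r.length)) (D.map (shift 1) ++ (arc σ t.length ++ D')) :=
    (Loc.refl (by simpa using hD.left [v])).co h'
  have h2 := h.co (Loc.refl (a := a) (m := m) (hD'.right [v]))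
  simp only [List.map_append, List.append_assoc] at h1 h2 ⊢
  exact h1.tr h2

/-! ### The local cases -/

section cases

theorem nat_cup {w : Bool} {c : ℕ} (σ : Bool) (u : Bool) {k : ℕ} (hk : 0 < k ∧ k < d) :
    Nat' d a m σ (web w c) [cup 0 u k] [] [web u k, web (!u) k] := by
  unfold Nat'
  have h1 : Loc d a m [web w c] [web u k, web (!u) k, web w c] 1
      ([cup 1 u k, cr 0 σ] ++ [cr 1 σ]) ([cup 0 u k, cr 1 (!σ)] ++ [cr 1 σ]) := by
    refine Loc.co (r := [web u k, web w c, web (!u) k]) (Loc.iso ?_ ?_ ?_).sy (Loc.refl ?_)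
    · have := Move.slideCup (d := d) 0 u k (!σ)
      rwa [Bool.not_not] at this
    · simp [Run, step_cup_succ, step_cup_zero, step_cr_succ, step_cr_zero, hk]
    · simp [Run, step_cup_succ, step_cup_zero, step_cr_succ, step_cr_zero, hk]
    · simp [Run, step_cr_succ, step_cr_zero]
  have h2 : Loc d a m [web w c] [web u k, web (!u) k, web w c] 1
      ([cup 0 u k] ++ [cr 1 (!σ), cr 1 σ]) ([cup 0 u k] ++ []) := by
    refine Loc.co (r := [web u k, web (!u) k, web w c]) (Loc.refl ?_) (Loc.iso ?_ ?_ ?_)
    · simp [Run, step_cup_zero, hk]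
    · have := Move.r2 (d := d) 1 (!σ)
      rwa [Bool.not_not] at this
    · simp [Run, step_cr_succ, step_cr_zero]
    · simp [Run]
  exact h1.tr h2

theorem nat_cap {w : Bool} {c : ℕ} (σ : Bool) (u : Bool) {k : ℕ} :
    Nat' d a m σ (web w c) [cap 0] [web u k, web (!u) k] [] := by
  unfold Nat'
  have h1 : Loc d a m [web w c, web u k, web (!u) k] [web w c] 1
      ([cr 0 σ] ++ [cr 1 σ, cap 0]) ([cr 0 σ] ++ [cr 0 (!σ), cap 1]) := by
    refine Loc.co (r := [web u k, web w c, web (!u) k]) (Loc.refl ?_) (Loc.iso ?_ ?_ ?_).sy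
    · simp [Run, step_cr_zero]
    · have := Move.slideCap (d := d) 0 (!σ)
      rwa [Bool.not_not] at this
    · simp [Run, step_cr_succ, step_cr_zero, step_cap_succ, step_cap_zero]
    · simp [Run, step_cr_succ, step_cr_zero, step_cap_succ, step_cap_zero]
  have h2 : Loc d a m [web w c, web u k, web (!u) k] [web w c] 1
      ([cr 0 σ, cr 0 (!σ)] ++ [cap 1]) ([] ++ [cap 1]) := by
    refine Loc.co (r := [web w c, web u k, web (!u) k]) (Loc.iso (Move.r2 0 σ) ?_ ?_)
      (Loc.refl ?_)
    · simp [Run, step_cr_zero]
    · simp [Run]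
    · simp [Run, step_cap_succ, step_cap_zero]
  exact (h1.tr h2).sy

theorem nat_cr {w : Bool} {c : ℕ} (σ o : Bool) {x y : Str} (h : ¬ (x = pole ∧ y = pole)) :
    Nat' d a m σ (web w c) [cr 0 o] [x, y] [y, x] := by
  unfold Nat'
  refine (Loc.iso (Move.r3 0 σ σ o (by simp)) ?_ ?_).sy
  · simp [Run, step_cr_succ, step_cr_zero, h]
  · simp [Run, step_cr_succ, step_cr_zero, h]

theorem lab_cases (d : ℕ) {k : ℕ} (h0 : 0 < k) (h : k ≤ d) :
    (k < d ∧ lab d k = [web true k] ∧ vis d k = 1) ∨ (k = d ∧ lab d k = [] ∧ vis d k = 0) := by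
  rcases lt_or_eq_of_le h with h1 | h1
  · exact Or.inl ⟨h1, if_pos ⟨h0, h1⟩, if_pos ⟨h0, h1⟩⟩
  · exact Or.inr ⟨h1, if_neg (by omega), if_neg (by omega)⟩

theorem nat_merge {w : Bool} {c : ℕ} (σ : Bool) {k l : ℕ} (h : 0 < k ∧ 0 < l ∧ k + l ≤ d) :
    Nat' d a m σ (web w c) [merge 0 k l] [web true k, web true l] (lab d (k + l)) := by
  unfold Nat'
  rw [length_lab]
  have hM := Move.slideMerge (d := d) 0 k l (!σ)
  rcases lab_cases d (show 0 < k + l by omega) h.2.2 with ⟨h1, h2, h3⟩ | ⟨h1, h2, h3⟩
  · rw [if_pos h1] at hM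
    rw [h3, h2]
    -- [cr 0 σ, cr 1 σ] ++ [merge 0, cr 0 !σ] ~ [cr 0 σ, cr 1 σ] ++ [cr 1 !σ, cr 0 !σ, merge 1]
    have e1 : Loc d a m [web w c, web true k, web true l] [web w c, web true (k + l)] 1
        ([cr 0 σ, cr 1 σ] ++ [merge 0 k l, cr 0 (!σ)])
        ([cr 0 σ, cr 1 σ] ++ [cr 1 (!σ), cr 0 (!σ), merge 1 k l]) := by
      refine Loc.co (r := [web true k, web true l, web w c]) (Loc.refl ?_) (Loc.iso hM ?_ ?_)
      · simp [Run, step_cr_succ, step_cr_zero]
      · simp [Run, step_merge_zero, h, h2, step_cr_zero]
      · simp [Run, step_cr_succ, step_cr_zero, step_merge_succ, step_merge_zero, h, h2]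
    have e2 : Loc d a m [web w c, web true k, web true l] [web w c, web true (k + l)] 1
        ([cr 0 σ] ++ ([cr 1 σ, cr 1 (!σ)] ++ [cr 0 (!σ), merge 1 k l]))
        ([cr 0 σ] ++ ([] ++ [cr 0 (!σ), merge 1 k l])) := by
      refine Loc.co (r := [web true k, web w c, web true l]) (Loc.refl ?_)
        (Loc.co (r := [web true k, web w c, web true l]) (Loc.iso (Move.r2 1 σ) ?_ ?_)
        (Loc.refl ?_))
      · simp [Run, step_cr_zero]
      · simp [Run, step_cr_succ, step_cr_zero]
      · simp [Run]
      · simp [Run, step_cr_zero, step_merge_succ, step_merge_zero, h, h2]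
    have e3 : Loc d a m [web w c, web true k, web true l] [web w c, web true (k + l)] 1
        ([cr 0 σ, cr 0 (!σ)] ++ [merge 1 k l]) ([] ++ [merge 1 k l]) := by
      refine Loc.co (r := [web w c, web true k, web true l]) (Loc.iso (Move.r2 0 σ) ?_ ?_)
        (Loc.refl ?_)
      · simp [Run, step_cr_zero]
      · simp [Run]
      · simp [Run, step_merge_succ, step_merge_zero, h, h2]
    have e4 := (e1.tr (e2.tr e3)).co (Loc.refl (a := a) (m := m)
      (show Run d [cr 0 σ] [web w c, web true (k + l)] [web true (k + l), web w c] by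
        simp [Run, step_cr_zero]))
    have e5 : Loc d a m [web w c, web true k, web true l] [web true (k + l), web w c] 1
        ([cr 0 σ, cr 1 σ, merge 0 k l] ++ [cr 0 (!σ), cr 0 σ])
        ([cr 0 σ, cr 1 σ, merge 0 k l] ++ []) := by
      refine Loc.co (r := [web true (k + l), web w c]) (Loc.refl ?_) (Loc.iso ?_ ?_ ?_)
      · simp [Run, step_cr_succ, step_cr_zero, step_merge_zero, h, h2]
      · have := Move.r2 (d := d) 0 (!σ)
        rwa [Bool.not_not] at this
      · simp [Run, step_cr_zero]
      · simp [Run]
    exact e4.sy.tr e5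
  · rw [if_neg (by omega)] at hM
    rw [h3, h2]
    have e1 : Loc d a m [web w c, web true k, web true l] [web w c] 1
        ([cr 0 σ, cr 1 σ] ++ [merge 0 k l])
        ([cr 0 σ, cr 1 σ] ++ [cr 1 (!σ), cr 0 (!σ), merge 1 k l]) := by
      refine Loc.co (r := [web true k, web true l, web w c]) (Loc.refl ?_) (Loc.iso hM ?_ ?_)
      · simp [Run, step_cr_succ, step_cr_zero]
      · simp [Run, step_merge_zero, h, h2]
      · simp [Run, step_cr_succ, step_cr_zero, step_merge_succ, step_merge_zero, h, h2]
    have e2 : Loc d a m [web w c, web true k, web true l] [web w c] 1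
        ([cr 0 σ] ++ ([cr 1 σ, cr 1 (!σ)] ++ [cr 0 (!σ), merge 1 k l]))
        ([cr 0 σ] ++ ([] ++ [cr 0 (!σ), merge 1 k l])) := by
      refine Loc.co (r := [web true k, web w c, web true l]) (Loc.refl ?_)
        (Loc.co (r := [web true k, web w c, web true l]) (Loc.iso (Move.r2 1 σ) ?_ ?_)
        (Loc.refl ?_))
      · simp [Run, step_cr_zero]
      · simp [Run, step_cr_succ, step_cr_zero]
      · simp [Run]
      · simp [Run, step_cr_zero, step_merge_succ, step_merge_zero, h, h2]
    have e3 : Loc d a m [web w c, web true k, web true l] [web w c] 1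
        ([cr 0 σ, cr 0 (!σ)] ++ [merge 1 k l]) ([] ++ [merge 1 k l]) := by
      refine Loc.co (r := [web w c, web true k, web true l]) (Loc.iso (Move.r2 0 σ) ?_ ?_)
        (Loc.refl ?_)
      · simp [Run, step_cr_zero]
      · simp [Run]
      · simp [Run, step_merge_succ, step_merge_zero, h, h2]
    exact (e1.tr (e2.tr e3)).sy

theorem nat_split {w : Bool} {c : ℕ} (σ : Bool) {k l : ℕ} (h : 0 < k ∧ 0 < l ∧ k + l ≤ d) :
    Nat' d a m σ (web w c) [split 0 k l] (lab d (k + l)) [web true k, web true l] := by
  unfold Nat'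
  rw [length_lab]
  have hM := Move.slideSplit (d := d) 0 k l (!σ)
  have hsp : ∀ s t, Step d (split 0 k l) (lab d (k + l) ++ s) t ↔
      t = web true k :: web true l :: s := fun s t => by
    rw [step_split_zero]; simp [h]
  -- the last two crossings cancel
  have r0 : Loc d a m [web true k, web true l, web w c] [web true k, web true l, web w c] 1
      ([cr 1 (!σ)] ++ ([cr 0 (!σ), cr 0 σ] ++ [cr 1 σ])) [] := by
    have f1 : Loc d a m [web true k, web true l, web w c] [web true k, web true l, web w c] 1
        ([cr 1 (!σ)] ++ ([cr 0 (!σ), cr 0 σ] ++ [cr 1 σ])) ([cr 1 (!σ)] ++ ([] ++ [cr 1 σ])) := by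
      refine Loc.co (r := [web true k, web w c, web true l]) (Loc.refl ?_)
        (Loc.co (r := [web true k, web w c, web true l]) (Loc.iso ?_ ?_ ?_)
        (Loc.refl ?_))
      · simp [Run, step_cr_succ, step_cr_zero]
      · have := Move.r2 (d := d) 0 (!σ)
        rwa [Bool.not_not] at this
      · simp [Run, step_cr_succ, step_cr_zero]
      · simp [Run]
      · simp [Run, step_cr_succ, step_cr_zero]
    refine f1.tr (Loc.iso ?_ ?_ ?_)
    · have := Move.r2 (d := d) 1 (!σ)
      rwa [Bool.not_not] at this
    · simp [Run, step_cr_succ, step_cr_zero]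
    · simp [Run]
  rcases lab_cases d (show 0 < k + l by omega) h.2.2 with ⟨h1, h2, h3⟩ | ⟨h1, h2, h3⟩
  · rw [if_pos h1] at hM
    rw [h2] at hsp
    rw [h3, h2]
    have e1 : Loc d a m [web w c, web true (k + l)] [web true k, web true l, web w c] 1
        ([cr 0 σ] ++ ([cr 0 (!σ), split 1 k l] ++ [cr 0 σ, cr 1 σ]))
        ([cr 0 σ] ++ ([split 0 k l, cr 1 (!σ), cr 0 (!σ)] ++ [cr 0 σ, cr 1 σ])) := by
      refine Loc.co (r := [web true (k + l), web w c]) (Loc.refl ?_)
        (Loc.co (r := [web w c, web true k, web true l]) (Loc.iso hM ?_ ?_) (Loc.refl ?_))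
      · simp [Run, step_cr_zero]
      · have := hsp []
        simp only [List.append_nil, List.singleton_append] at this
        simp [Run, step_cr_zero, step_split_succ, this]
      · have := hsp [web w c]
        simp only [List.singleton_append] at this
        simp [Run, step_cr_succ, step_cr_zero, this]
      · simp [Run, step_cr_succ, step_cr_zero]
    have e2 : Loc d a m [web w c, web true (k + l)] [web true k, web true l, web w c] 1
        ([cr 0 σ, split 0 k l] ++ ([cr 1 (!σ)] ++ ([cr 0 (!σ), cr 0 σ] ++ [cr 1 σ])))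
        ([cr 0 σ, split 0 k l] ++ []) := by
      refine Loc.co (Loc.refl ?_) r0
      have := hsp [web w c]
      simp only [List.singleton_append] at this
      simp [Run, step_cr_zero, this]
    have e3 : Loc d a m [web w c, web true (k + l)] [web true k, web true l, web w c] 1
        ([cr 0 σ, cr 0 (!σ)] ++ [split 1 k l, cr 0 σ, cr 1 σ])
        ([] ++ [split 1 k l, cr 0 σ, cr 1 σ]) := by
      refine Loc.co (r := [web w c, web true (k + l)]) (Loc.iso (Move.r2 0 σ) ?_ ?_)
        (Loc.refl ?_)
      · simp [Run, step_cr_zero]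
      · simp [Run]
      · have := hsp []
        simp only [List.append_nil, List.singleton_append] at this
        simp [Run, step_cr_zero, step_cr_succ, step_split_succ, this]
    exact e3.sy.tr (e1.tr e2)
  · rw [if_neg (by omega)] at hM
    rw [h2] at hsp
    rw [h3, h2]
    have e1 : Loc d a m [web w c] [web true k, web true l, web w c] 1
        ([split 1 k l] ++ [cr 0 σ, cr 1 σ])
        ([split 0 k l, cr 1 (!σ), cr 0 (!σ)] ++ [cr 0 σ, cr 1 σ]) := by
      refine (Loc.co (r := [web w c, web true k, web true l]) (Loc.iso hM ?_ ?_) (Loc.refl ?_))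
      · have := hsp []
        simp only [List.append_nil] at this
        simp [Run, step_split_succ, this]
      · have := hsp [web w c]
        simp only [List.nil_append] at this
        simp [Run, step_cr_succ, step_cr_zero, this]
      · simp [Run, step_cr_succ, step_cr_zero]
    have e2 : Loc d a m [web w c] [web true k, web true l, web w c] 1
        ([split 0 k l] ++ ([cr 1 (!σ)] ++ ([cr 0 (!σ), cr 0 σ] ++ [cr 1 σ])))
        ([split 0 k l] ++ []) := by
      refine Loc.co (Loc.refl ?_) r0
      have := hsp [web w c]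
      simp only [List.nil_append] at this
      simp [Run, this]
    exact e1.tr e2

/-- A strand passes in front of or behind a piece. -/
theorem nat_step {w : Bool} {c : ℕ} (σ : Bool) {p : Piece} {s t : List Str} (h : Step d p s t) :
    Nat' d a m σ (web w c) [p] s t := by
  have hv : web w c ≠ pole := by simp
  cases h with
  | cup A B u k h =>
    have h0 : Run d [cup 0 u k] [] [web u k, web (!u) k] := by simp [Run, step_cup_zero, h]
    have := ((nat_cup (a := a) (m := m) (w := w) (c := c) σ u h).left hv h0 A).right hv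
      (h0.left A) B
    simpa [Piece.shift] using this
  | cap A B u k =>
    have h0 : Run d [cap 0] [web u k, web (!u) k] [] := by simp [Run, step_cap_zero]
    have := ((nat_cap (d := d) (a := a) (m := m) (w := w) (c := c) σ u).left hv h0 A).right hv
      (h0.left A) B
    simpa [Piece.shift] using this
  | cr A B x y o h =>
    have h0 : Run d [cr 0 o] [x, y] [y, x] := by simp [Run, step_cr_zero, h]
    have := ((nat_cr (d := d) (a := a) (m := m) (w := w) (c := c) σ o h).left hv h0 A).right hv
      (h0.left A) B
    simpa [Piece.shift] using this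
  | merge A B k l h =>
    have h0 : Run d [merge 0 k l] [web true k, web true l] (lab d (k + l)) := by
      simp [Run, step_merge_zero, h]
    have := ((nat_merge (d := d) (a := a) (m := m) (w := w) (c := c) σ h).left hv h0 A).right hv
      (h0.left A) B
    simpa [Piece.shift] using this
  | split A B k l h =>
    have h0 : Run d [split 0 k l] (lab d (k + l)) [web true k, web true l] := by
      have := step_split_zero (d := d) (k := k) (l := l) (s := []) (t := [web true k, web true l])
      rw [List.append_nil] at this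
      rw [run_singleton, this]
      exact ⟨h, rfl⟩
    have := ((nat_split (d := d) (a := a) (m := m) (w := w) (c := c) σ h).left hv h0 A).right hv
      (h0.left A) B
    simpa [Piece.shift] using this

end cases

end

end Pool.Agent.Helper26.SK
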