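import Pool.Agent.Helper26.SK.Steps
import Pool.Agent.Helper26.SK.Natural

/-!
# The diagrams in the skein relations are well formed
-/

namespace Pool.Agent.Helper26.SK

set_option linter.unusedSimpArgs false

open Str Piece

variable {d : ℕ} {a : ℂ}

theorem lab_zero : lab d 0 = [] := by simp [lab]

theorem vis_zero : vis d 0 = 0 := by simp [vis]

theorem lab_of {k : ℕ} (h : 0 < k ∧ k < d) : lab d k = [web true k] := if_pos h

theorem vis_of {k : ℕ} (h : 0 < k ∧ k < d) : vis d k = 1 := if_pos h

theorem run_sp {k l : ℕ} (h : k + l ≤ d) :
    Run d (sp 0 k l) (lab d (k + l)) (lab d k ++ lab d l) := by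
  unfold sp
  rcases Nat.eq_zero_or_pos k with rfl | hk
  · simp [lab_zero, Run]
  · rcases Nat.eq_zero_or_pos l with rfl | hl
    · simp [lab_zero, Run]
    · rw [if_neg (by omega), lab_of (k := k) (by omega), lab_of (k := l) (by omega)]
      have := Step.split (d := d) [] [] k l ⟨hk, hl, h⟩
      rw [run_singleton]
      simpa using this

theorem run_mg {k l : ℕ} (h : k + l ≤ d) :
    Run d (mg 0 k l) (lab d k ++ lab d l) (lab d (k + l)) := by
  unfold mg
  rcases Nat.eq_zero_or_pos k with rfl | hk
  · simp [lab_zero, Run]
  · rcases Nat.eq_zero_or_pos l with rfl | hl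
    · simp [lab_zero, Run]
    · rw [if_neg (by omega), lab_of (k := k) (by omega), lab_of (k := l) (by omega)]
      have := Step.merge (d := d) [] [] k l ⟨hk, hl, h⟩
      rw [run_singleton]
      simpa using this

theorem sp_shift (i n k l : ℕ) : (sp i k l).map (shift n) = sp (i + n) k l := by
  unfold sp; split_ifs <;> rfl

theorem mg_shift (i n k l : ℕ) : (mg i k l).map (shift n) = mg (i + n) k l := by
  unfold mg; split_ifs <;> rfl

theorem run_sp_at {k l : ℕ} (h : k + l ≤ d) {A s t B : List Str} {n : ℕ} (hn : n = A.length)
    (hs : s = A ++ lab d (k + l) ++ B) (ht : t = A ++ (lab d k ++ lab d l) ++ B) :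
    Run d (sp n k l) s t := by
  subst hn hs ht
  have := (run_sp h).shift A B
  rwa [sp_shift, Nat.zero_add] at this

theorem run_mg_at {k l : ℕ} (h : k + l ≤ d) {A s t B : List Str} {n : ℕ} (hn : n = A.length)
    (hs : s = A ++ (lab d k ++ lab d l) ++ B) (ht : t = A ++ lab d (k + l) ++ B) :
    Run d (mg n k l) s t := by
  subst hn hs ht
  have := (run_mg h).shift A B
  rwa [mg_shift, Nat.zero_add] at this

theorem run_ladE {k l r : ℕ} (hk : r ≤ k) (hl : l + r ≤ d) (hkd : k ≤ d) {t : List Str}
    (ht : t = lab d (k - r) ++ lab d (l + r)) :
    Run d (ladE d k l r) (lab d k ++ lab d l) t := by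
  subst ht
  unfold ladE
  refine Run.append (r := lab d (k - r) ++ lab d r ++ lab d l) ?_ ?_
  · refine run_sp_at (A := []) (B := lab d l) (by omega) rfl ?_ (by simp)
    rw [Nat.sub_add_cancel hk]; rfl
  · refine run_mg_at (A := lab d (k - r)) (B := []) (by omega) (length_lab d _).symm (by simp) ?_
    rw [Nat.add_comm r l]; simp

theorem run_ladF {k l s : ℕ} (hl : s ≤ l) (hk : k + s ≤ d) (hld : l ≤ d) {t : List Str}
    (ht : t = lab d (k + s) ++ lab d (l - s)) :
    Run d (ladF d k l s) (lab d k ++ lab d l) t := by
  subst ht
  unfold ladF
  refine Run.append (r := lab d k ++ lab d s ++ lab d (l - s)) ?_ ?_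
  · refine run_sp_at (A := lab d k) (B := []) (by omega) (length_lab d _).symm ?_ (by simp)
    rw [Nat.add_sub_cancel' hl]; simp
  · exact run_mg_at (A := []) (B := lab d (l - s)) (by omega) rfl (by simp) (by simp)

/-- All diagrams in the skein relations lead from `s` to `t`. -/
theorem Skein.run {s t : List Str} {X Y : List (ℂ × List Piece)} (h : Skein d a s t X Y) :
    (∀ x ∈ X, Run d x.2 s t) ∧ (∀ x ∈ Y, Run d x.2 s t) := by
  cases h with
  | digon k l h =>
    refine ⟨fun x hx => ?_, fun x hx => ?_⟩
    · rw [List.mem_singleton.1 hx]
      have h1 := (run_sp (d := d) h.2.2).append (run_mg h.2.2)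
      unfold sp mg at h1
      rw [if_neg (by omega), if_neg (by omega)] at h1
      exact h1
    · rw [List.mem_singleton.1 hx]; rfl
  | loopR k l h =>
    refine ⟨fun x hx => ?_, fun x hx => ?_⟩
    · rw [List.mem_singleton.1 hx]
      have h1 : Run d [cup (vis d k) true l] (lab d k) (lab d k ++ [web true l, web false l]) := by
        have := Step.cup (d := d) (lab d k) [] true l ⟨h.1, h.2.1⟩
        rw [run_singleton]
        simpa [length_lab] using this
      have hl := lab_of (d := d) (k := l) ⟨h.1, h.2.1⟩
      have h2 : Run d (mg 0 k l) (lab d k ++ [web true l, web false l])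
          (lab d (k + l) ++ [web false l]) := by
        refine run_mg_at (A := []) (B := [web false l]) h.2.2 rfl ?_ (by simp)
        rw [hl]; simp
      have h3 : Run d (sp 0 k l) (lab d (k + l) ++ [web false l])
          (lab d k ++ [web true l, web false l]) := by
        refine run_sp_at (A := []) (B := [web false l]) h.2.2 rfl (by simp) ?_
        rw [hl]; simp
      have h4 : Run d [cap (vis d k)] (lab d k ++ [web true l, web false l]) (lab d k) := by
        have := Step.cap (d := d) (lab d k) [] true l
        rw [run_singleton]
        simpa [length_lab] using this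
      exact ((h1.append h2).append h3).append h4
    · rw [List.mem_singleton.1 hx]; rfl
  | loopL k l h =>
    refine ⟨fun x hx => ?_, fun x hx => ?_⟩
    · rw [List.mem_singleton.1 hx]
      have h1 : Run d [cup 0 false l] (lab d k) ([web false l, web true l] ++ lab d k) := by
        have := Step.cup (d := d) [] (lab d k) false l ⟨h.1, h.2.1⟩
        rw [run_singleton]
        simpa using this
      have hl := lab_of (d := d) (k := l) ⟨h.1, h.2.1⟩
      have h2 : Run d (mg 1 l k) ([web false l, web true l] ++ lab d k)
          ([web false l] ++ lab d (k + l)) := by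
        refine run_mg_at (A := [web false l]) (B := []) (by omega) rfl ?_ ?_
        · rw [hl]; simp
        · rw [Nat.add_comm l k]; simp
      have h3 : Run d (sp 1 l k) ([web false l] ++ lab d (k + l))
          ([web false l, web true l] ++ lab d k) := by
        refine run_sp_at (A := [web false l]) (B := []) (by omega) rfl ?_ ?_
        · rw [Nat.add_comm l k]; simp
        · rw [hl]; simp
      have h4 : Run d [cap 0] ([web false l, web true l] ++ lab d k) (lab d k) := by
        have := Step.cap (d := d) [] (lab d k) false l
        rw [run_singleton]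
        simpa using this
      exact ((h1.append h2).append h3).append h4
    · rw [List.mem_singleton.1 hx]; rfl
  | assocMerge k l j h =>
    refine ⟨fun x hx => ?_, fun x hx => ?_⟩
    · rw [List.mem_singleton.1 hx]
      have h1 := run_mg_at (d := d) (k := k) (l := l) (n := 0) (A := []) (B := [web true j])
        (by omega) rfl rfl rfl
      have h2 := run_mg_at (d := d) (k := k + l) (l := j) (n := 0) (A := []) (B := [])
        (by omega) rfl rfl rfl
      unfold mg at h1 h2
      rw [if_neg (by omega)] at h1 h2
      rw [lab_of (k := k) (by omega), lab_of (k := l) (by omega)] at h1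
      rw [lab_of (k := j) (by omega)] at h2
      have := h1.append (E := [merge 0 (k + l) j]) (t := lab d (k + l + j)) (by simpa using h2)
      simpa using this
    · rw [List.mem_singleton.1 hx]
      have h1 := run_mg_at (d := d) (k := l) (l := j) (n := 1) (A := [web true k]) (B := [])
        (by omega) rfl rfl rfl
      have h2 := run_mg_at (d := d) (k := k) (l := l + j) (n := 0) (A := []) (B := [])
        (by omega) rfl rfl rfl
      unfold mg at h1 h2
      rw [if_neg (by omega)] at h1 h2
      rw [lab_of (k := j) (by omega), lab_of (k := l) (by omega)] at h1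
      rw [lab_of (k := k) (by omega)] at h2
      have := h1.append (E := [merge 0 k (l + j)]) (t := lab d (k + l + j))
        (by rw [Nat.add_assoc]; simpa using h2)
      simpa using this
  | assocSplit k l j h =>
    refine ⟨fun x hx => ?_, fun x hx => ?_⟩
    · rw [List.mem_singleton.1 hx]
      have h1 := run_sp_at (d := d) (k := k) (l := l) (n := 0) (A := []) (B := [web true j])
        (by omega) rfl rfl rfl
      have h2 := run_sp_at (d := d) (k := k + l) (l := j) (n := 0) (A := []) (B := [])
        (by omega) rfl rfl rfl
      unfold sp at h1 h2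
      rw [if_neg (by omega)] at h1 h2
      rw [lab_of (k := k) (by omega), lab_of (k := l) (by omega)] at h1
      rw [lab_of (k := j) (by omega)] at h2
      have := Run.append (D := [split 0 (k + l) j]) (s := lab d (k + l + j))
        (by simpa using h2) h1
      simpa using this
    · rw [List.mem_singleton.1 hx]
      have h1 := run_sp_at (d := d) (k := l) (l := j) (n := 1) (A := [web true k]) (B := [])
        (by omega) rfl rfl rfl
      have h2 := run_sp_at (d := d) (k := k) (l := l + j) (n := 0) (A := []) (B := [])
        (by omega) rfl rfl rfl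
      unfold sp at h1 h2
      rw [if_neg (by omega)] at h1 h2
      rw [lab_of (k := j) (by omega), lab_of (k := l) (by omega)] at h1
      rw [lab_of (k := k) (by omega)] at h2
      have := Run.append (D := [split 0 k (l + j)]) (s := lab d (k + l + j))
        (by rw [Nat.add_assoc]; simpa using h2) h1
      simpa using this
  | tagMerge k l h =>
    have hl : lab d (k + l) = [] := by rw [h.2.2]; simp [lab]
    have hl' : lab d (l + k) = [] := by rw [Nat.add_comm]; exact hl
    refine ⟨fun x hx => ?_, fun x hx => ?_⟩
    · rw [List.mem_singleton.1 hx]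
      simp [Run, step_cup_zero, step_merge_succ, step_merge_zero, hl]
      omega
    · rw [List.mem_singleton.1 hx]
      simp [Run, step_cup_succ, step_cup_zero, step_merge_succ, step_merge_zero, hl']
      omega
  | tagSplit k l h =>
    have hl : lab d (k + l) = [] := by rw [h.2.2]; simp [lab]
    have hl' : lab d (l + k) = [] := by rw [Nat.add_comm]; exact hl
    have e1 : ∀ t, Step d (split 0 k l) [] t ↔ t = [web true k, web true l] := by
      intro t
      have := step_split_zero (d := d) (k := k) (l := l) (s := []) (t := t)
      rw [hl, List.append_nil] at this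
      rw [this]
      constructor
      · exact fun h => h.2
      · exact fun h' => ⟨by omega, h'⟩
    have e2 : ∀ s t, Step d (split 0 l k) s t ↔ t = web true l :: web true k :: s := by
      intro s t
      have := step_split_zero (d := d) (k := l) (l := k) (s := s) (t := t)
      rw [hl', List.nil_append] at this
      rw [this]
      constructor
      · exact fun h => h.2
      · exact fun h' => ⟨by omega, h'⟩
    refine ⟨fun x hx => ?_, fun x hx => ?_⟩
    · rw [List.mem_singleton.1 hx]
      simp [Run, step_split_succ, e1, step_cap_zero]
    · rw [List.mem_singleton.1 hx]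
      simp [Run, e2, step_cap_succ, step_cap_zero]
  | squareFE k l r s h =>
    refine ⟨fun x hx => ?_, fun x hx => ?_⟩
    · rw [List.mem_singleton.1 hx]
      exact (run_ladF h.2.2.1 h.2.2.2.1 h.2.1 rfl).append
        (run_ladE h.2.2.2.2.1 h.2.2.2.2.2 h.2.2.2.1 rfl)
    · rw [List.mem_map] at hx
      obtain ⟨t, ht, rfl⟩ := hx
      simp only [List.mem_filter, List.mem_range, decide_eq_true_eq] at ht
      refine (run_ladE (t := lab d (k - (r - t)) ++ lab d (l + (r - t))) (by omega) (by omega)
        h.1 rfl).append (run_ladF (by omega) (by omega) (by omega) ?_)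
      congr 2 <;> omega
  | squareEF k l r s h =>
    refine ⟨fun x hx => ?_, fun x hx => ?_⟩
    · rw [List.mem_singleton.1 hx]
      exact (run_ladE h.2.2.1 h.2.2.2.1 h.1 rfl).append
        (run_ladF h.2.2.2.2.1 h.2.2.2.2.2 h.2.2.2.1 rfl)
    · rw [List.mem_map] at hx
      obtain ⟨t, ht, rfl⟩ := hx
      simp only [List.mem_filter, List.mem_range, decide_eq_true_eq] at ht
      refine (run_ladF (t := lab d (k + (s - t)) ++ lab d (l - (s - t))) (by omega) (by omega)
        h.2.1 rfl).append (run_ladE (by omega) (by omega) (by omega) ?_)
      congr 2 <;> omega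
  | crossGe k l o b hb h =>
    have hk := lab_of (d := d) (k := k) (by omega)
    have hl := lab_of (d := d) (k := l) (by omega)
    refine ⟨fun x hx => ?_, fun x hx => ?_⟩
    · rw [List.mem_singleton.1 hx]
      simp [Run, step_cr_zero]
    · rw [List.mem_map] at hx
      obtain ⟨t, ht, rfl⟩ := hx
      rw [List.mem_range] at ht
      have := (run_ladF (d := d) (k := k) (l := l) (s := t)
        (t := lab d (k + t) ++ lab d (l - t)) (by omega) (by omega) (by omega)
        rfl).append (run_ladE (k := k + t) (l := l - t) (r := k - l + t)
        (t := lab d l ++ lab d k) (by omega) (by omega) (by omega) (by congr 2 <;> omega))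
      rw [hk, hl] at this
      exact this
  | crossLe k l o b hb h =>
    have hk := lab_of (d := d) (k := k) (by omega)
    have hl := lab_of (d := d) (k := l) (by omega)
    refine ⟨fun x hx => ?_, fun x hx => ?_⟩
    · rw [List.mem_singleton.1 hx]
      simp [Run, step_cr_zero]
    · rw [List.mem_map] at hx
      obtain ⟨t, ht, rfl⟩ := hx
      rw [List.mem_range] at ht
      have := (run_ladE (d := d) (k := k) (l := l) (r := t)
        (t := lab d (k - t) ++ lab d (l + t)) (by omega) (by omega) (by omega)
        rfl).append (run_ladF (k := k - t) (l := l + t) (s := l - k + t)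
        (t := lab d l ++ lab d k) (by omega) (by omega) (by omega) (by congr 2 <;> omega))
      rw [hk, hl] at this
      exact this

end Pool.Agent.Helper26.SK
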