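import Pool.Agent.Helper26.SK.Basic

/-!
# Explicit steps
-/

namespace Pool.Agent.Helper26.SK

open Str Piece

variable {d : ℕ}

theorem step_cr_zero {o : Bool} {x y : Str} {s t : List Str} :
    Step d (cr 0 o) (x :: y :: s) t ↔ ¬ (x = pole ∧ y = pole) ∧ t = y :: x :: s := by
  constructor
  · intro h
    generalize hp : cr 0 o = p at h
    generalize hs : x :: y :: s = s' at h
    cases h with
    | cr A B x' y' o' h =>
      simp only [Piece.cr.injEq] at hp
      have hA : A = [] := List.length_eq_zero_iff.1 hp.1.symm
      subst hA
      simp only [List.nil_append, List.cons_append, List.cons.injEq] at hs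
      obtain ⟨rfl, rfl, rfl⟩ := hs
      exact ⟨h, rfl⟩
    | _ => simp at hp
  · rintro ⟨h, rfl⟩
    exact Step.cr [] s x y o h

theorem step_cup_zero {u : Bool} {k : ℕ} {s t : List Str} :
    Step d (cup 0 u k) s t ↔ (0 < k ∧ k < d) ∧ t = web u k :: web (!u) k :: s := by
  constructor
  · intro h
    generalize hp : cup 0 u k = p at h
    cases h with
    | cup A B u' k' h =>
      simp only [Piece.cup.injEq] at hp
      obtain ⟨hA, rfl, rfl⟩ := hp
      have hA : A = [] := List.length_eq_zero_iff.1 hA.symm
      subst hA
      exact ⟨h, rfl⟩
    | _ => simp at hp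
  · rintro ⟨h, rfl⟩
    exact Step.cup [] s u k h

theorem step_cap_zero {x y : Str} {s t : List Str} :
    Step d (cap 0) (x :: y :: s) t ↔ (∃ u k, x = web u k ∧ y = web (!u) k) ∧ t = s := by
  constructor
  · intro h
    generalize hp : cap 0 = p at h
    generalize hs : x :: y :: s = s' at h
    cases h with
    | cap A B u k =>
      simp only [Piece.cap.injEq] at hp
      have hA : A = [] := List.length_eq_zero_iff.1 hp.symm
      subst hA
      simp only [List.nil_append, List.cons_append, List.cons.injEq] at hs
      obtain ⟨rfl, rfl, rfl⟩ := hs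
      exact ⟨⟨u, k, rfl, rfl⟩, rfl⟩
    | _ => simp at hp
  · rintro ⟨⟨u, k, rfl, rfl⟩, rfl⟩
    exact Step.cap [] t u k

theorem step_merge_zero {k l : ℕ} {x y : Str} {s t : List Str} :
    Step d (merge 0 k l) (x :: y :: s) t ↔
      (0 < k ∧ 0 < l ∧ k + l ≤ d) ∧ (x = web true k ∧ y = web true l) ∧ t = lab d (k + l) ++ s := by
  constructor
  · intro h
    generalize hp : merge 0 k l = p at h
    generalize hs : x :: y :: s = s' at h
    cases h with
    | merge A B k' l' h =>
      simp only [Piece.merge.injEq] at hp
      obtain ⟨hA, rfl, rfl⟩ := hp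
      have hA : A = [] := List.length_eq_zero_iff.1 hA.symm
      subst hA
      simp only [List.nil_append, List.cons_append, List.cons.injEq] at hs
      obtain ⟨rfl, rfl, rfl⟩ := hs
      exact ⟨h, ⟨rfl, rfl⟩, rfl⟩
    | _ => simp at hp
  · rintro ⟨h, ⟨rfl, rfl⟩, rfl⟩
    exact Step.merge [] s k l h

theorem step_split_zero {k l : ℕ} {s t : List Str} :
    Step d (split 0 k l) (lab d (k + l) ++ s) t ↔
      (0 < k ∧ 0 < l ∧ k + l ≤ d) ∧ t = web true k :: web true l :: s := by
  constructor
  · intro h
    generalize hp : split 0 k l = p at h
    generalize hs : lab d (k + l) ++ s = s' at h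
    cases h with
    | split A B k' l' h =>
      simp only [Piece.split.injEq] at hp
      obtain ⟨hA, rfl, rfl⟩ := hp
      have hA : A = [] := List.length_eq_zero_iff.1 hA.symm
      subst hA
      rw [List.nil_append] at hs
      obtain rfl := (List.append_inj hs rfl).2
      exact ⟨h, rfl⟩
    | _ => simp at hp
  · rintro ⟨h, rfl⟩
    exact Step.split [] s k l h

theorem step_succ {p : Piece} {x : Str} {s t : List Str} :
    Step d (p.shift 1) (x :: s) t ↔ ∃ t', t = x :: t' ∧ Step d p s t' := by
  constructor
  · intro h
    generalize hp : p.shift 1 = p' at h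
    generalize hs : x :: s = s' at h
    cases h with
    | cup A B u k h =>
      cases p with
      | cup i u' k' =>
        simp only [Piece.shift, Piece.cup.injEq] at hp
        obtain ⟨hA, rfl, rfl⟩ := hp
        cases A with
        | nil => simp at hA
        | cons z A =>
          simp only [List.cons_append, List.cons.injEq] at hs
          obtain ⟨rfl, rfl⟩ := hs
          obtain rfl : i = A.length := by simpa using hA
          exact ⟨_, rfl, Step.cup A B u' k' h⟩
      | _ => simp [Piece.shift] at hp
    | cap A B u k =>
      cases p with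
      | cap i =>
        simp only [Piece.shift, Piece.cap.injEq] at hp
        cases A with
        | nil => simp at hp
        | cons z A =>
          simp only [List.cons_append, List.cons.injEq] at hs
          obtain ⟨rfl, rfl⟩ := hs
          obtain rfl : i = A.length := by simpa using hp
          exact ⟨_, rfl, Step.cap A B u k⟩
      | _ => simp [Piece.shift] at hp
    | cr A B x' y' o h =>
      cases p with
      | cr i o' =>
        simp only [Piece.shift, Piece.cr.injEq] at hp
        obtain ⟨hA, rfl⟩ := hp
        cases A with
        | nil => simp at hA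
        | cons z A =>
          simp only [List.cons_append, List.cons.injEq] at hs
          obtain ⟨rfl, rfl⟩ := hs
          obtain rfl : i = A.length := by simpa using hA
          exact ⟨_, rfl, Step.cr A B x' y' o' h⟩
      | _ => simp [Piece.shift] at hp
    | merge A B k l h =>
      cases p with
      | merge i k' l' =>
        simp only [Piece.shift, Piece.merge.injEq] at hp
        obtain ⟨hA, rfl, rfl⟩ := hp
        cases A with
        | nil => simp at hA
        | cons z A =>
          simp only [List.cons_append, List.cons.injEq] at hs
          obtain ⟨rfl, rfl⟩ := hs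
          obtain rfl : i = A.length := by simpa using hA
          exact ⟨_, rfl, Step.merge A B k' l' h⟩
      | _ => simp [Piece.shift] at hp
    | split A B k l h =>
      cases p with
      | split i k' l' =>
        simp only [Piece.shift, Piece.split.injEq] at hp
        obtain ⟨hA, rfl, rfl⟩ := hp
        cases A with
        | nil => simp at hA
        | cons z A =>
          simp only [List.cons_append, List.append_assoc, List.cons.injEq] at hs
          obtain ⟨rfl, rfl⟩ := hs
          obtain rfl : i = A.length := by simpa using hA
          have := Step.split A B k' l' h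
          rw [List.append_assoc] at this
          exact ⟨_, rfl, this⟩
      | _ => simp [Piece.shift] at hp
  · rintro ⟨t', rfl, h⟩
    have := h.shift [x] []
    simpa using this

theorem step_cr_succ {i : ℕ} {o : Bool} {x : Str} {s t : List Str} :
    Step d (cr (i + 1) o) (x :: s) t ↔ ∃ t', t = x :: t' ∧ Step d (cr i o) s t' :=
  step_succ (p := cr i o)

theorem step_cup_succ {i : ℕ} {u : Bool} {k : ℕ} {x : Str} {s t : List Str} :
    Step d (cup (i + 1) u k) (x :: s) t ↔ ∃ t', t = x :: t' ∧ Step d (cup i u k) s t' :=
  step_succ (p := cup i u k)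

theorem step_cap_succ {i : ℕ} {x : Str} {s t : List Str} :
    Step d (cap (i + 1)) (x :: s) t ↔ ∃ t', t = x :: t' ∧ Step d (cap i) s t' :=
  step_succ (p := cap i)

theorem step_merge_succ {i k l : ℕ} {x : Str} {s t : List Str} :
    Step d (merge (i + 1) k l) (x :: s) t ↔ ∃ t', t = x :: t' ∧ Step d (merge i k l) s t' :=
  step_succ (p := merge i k l)

theorem step_split_succ {i k l : ℕ} {x : Str} {s t : List Str} :
    Step d (split (i + 1) k l) (x :: s) t ↔ ∃ t', t = x :: t' ∧ Step d (split i k l) s t' :=
  step_succ (p := split i k l)

/-- test -/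
example (k l : ℕ) (h : 0 < k ∧ k < d) (o : Bool) : Run d [cup 2 true k, cr 1 o, cap 0]
    [web false k, web true l] [web true l, web false k] := by
  simp [Run, step_cup_succ, step_cup_zero, step_cr_succ, step_cr_zero, step_cap_zero, h]

end Pool.Agent.Helper26.SK
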