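import Pool.Agent.Helper26.SK.Natural

/-!
# Crossing changes at `q = ± 1`
-/

namespace Pool.Agent.Helper26.SK

set_option linter.unusedSimpArgs false

open Str Piece

variable {d : ℕ} {a : ℂ} {m : ℕ}

/-- The class of a formal combination inserted in a diagram. -/
theorem mk_ins (n : ℕ) (U V : List Piece) (X : List (ℂ × List Piece)) :
    RingQuot.mkAlgHom ℂ (Rel d a m) (ins d m n U V X) =
      (X.map fun x => x.1 • cl d a m (U ++ x.2.map (shift n) ++ V)).sum := by
  rw [ins, map_list_sum, List.map_map]
  congr 1
  apply List.map_congr_left
  intro x _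
  simp [cl, toSk]

/-- crossing changes for upward strands -/
theorem switch_up (ha : a ≠ 0) (hd : (a ^ d) ^ 2 = 1) {k l : ℕ} (hk : 0 < k ∧ k < d)
    (hl : 0 < l ∧ l < d) :
    Loc d a m [web true k, web true l] [web true l, web true k] ((a ^ (2 * (k * l)))⁻¹)
      [cr 0 true] [cr 0 false] := by
  refine ⟨by simp [Run, step_cr_zero], by simp [Run, step_cr_zero], fun A B U V hU hV => ?_⟩
  -- both crossings are multiples of the same sum
  have key : ∃ W : Sk d a m, ∀ (o : Bool) (b : ℂ), b = (if o then a else a⁻¹) →
      cl d a m (U ++ [cr 0 o].map (shift A.length) ++ V) = b⁻¹ ^ (k * l) • W := by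
    rcases le_total l k with h | h
    · refine ⟨((List.range (min l (d - k) + 1)).map fun t =>
        ((-1 : ℂ) ^ (l + k * l) * (a ^ d) ^ l * (-(a ^ d)⁻¹) ^ t) • cl d a m (U ++
          (ladF d k l t ++ ladE d (k + t) (l - t) (k - l + t)).map (shift A.length) ++ V)).sum,
        fun o b hb => ?_⟩
      have hb1 : b ^ d = a ^ d := by
        subst hb
        split_ifs
        · rfl
        · rw [inv_pow]
          exact inv_eq_of_mul_eq_one_left (by rw [← pow_two, hd])
      have := RingQuot.mkAlgHom_rel ℂ (Rel.skein (m := m) U V A B _ _ _ _
        (Skein.crossGe (d := d) (a := a) k l o b hb ⟨hl.1, h, hk.2⟩) hU hV)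
      rw [mk_ins, mk_ins] at this
      simp only [List.map_cons, List.map_nil, List.sum_cons, List.sum_nil, add_zero, one_smul]
        at this ⊢
      rw [this, List.smul_sum, List.map_map, List.map_map]
      congr 1
      apply List.map_congr_left
      intro t _
      simp only [Function.comp_apply, hb1, smul_smul]
      congr 1
      ring
    · refine ⟨((List.range (min k (d - l) + 1)).map fun t =>
        ((-1 : ℂ) ^ (k + k * l) * (a ^ d) ^ k * (-(a ^ d)⁻¹) ^ t) • cl d a m (U ++
          (ladE d k l t ++ ladF d (k - t) (l + t) (l - k + t)).map (shift A.length) ++ V)).sum,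
        fun o b hb => ?_⟩
      have hb1 : b ^ d = a ^ d := by
        subst hb
        split_ifs
        · rfl
        · rw [inv_pow]
          exact inv_eq_of_mul_eq_one_left (by rw [← pow_two, hd])
      have := RingQuot.mkAlgHom_rel ℂ (Rel.skein (m := m) U V A B _ _ _ _
        (Skein.crossLe (d := d) (a := a) k l o b hb ⟨hk.1, h, hl.2⟩) hU hV)
      rw [mk_ins, mk_ins] at this
      simp only [List.map_cons, List.map_nil, List.sum_cons, List.sum_nil, add_zero, one_smul]
        at this ⊢
      rw [this, List.smul_sum, List.map_map, List.map_map]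
      congr 1
      apply List.map_congr_left
      intro t _
      simp only [Function.comp_apply, hb1, smul_smul]
      congr 1
      ring
  obtain ⟨W, hW⟩ := key
  rw [hW true a rfl, hW false a⁻¹ rfl, smul_smul]
  congr 1
  rw [inv_inv]
  have : a ^ (k * l) ≠ 0 := pow_ne_zero _ ha
  rw [inv_pow, two_mul, pow_add]
  field_simp

/-- The factor of a strand. -/
noncomputable def gs (a : ℂ) : Str → ℂ
  | pole => 1
  | web true k => a ^ (2 * k)
  | web false k => (a ^ (2 * k))⁻¹

theorem gs_ne_zero (ha : a ≠ 0) (x : Str) : gs a x ≠ 0 := by
  rcases x with _ | ⟨_ | _, k⟩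
  · exact one_ne_zero
  · exact inv_ne_zero (pow_ne_zero _ ha)
  · exact pow_ne_zero _ ha

/-- crossing changes, the strand with weight one and upward direction on the right -/
theorem switch_right (ha : a ≠ 0) (hd : (a ^ d) ^ 2 = 1) {u : Bool} {k : ℕ} (hk : 0 < k ∧ k < d)
    (h1 : 1 < d) :
    Loc d a m [web u k, web true 1] [web true 1, web u k] (gs a (web u k))⁻¹
      [cr 0 true] [cr 0 false] := by
  cases u with
  | true =>
    have := switch_up (m := m) ha hd hk (l := 1) ⟨one_pos, h1⟩
    simpa [gs] using this
  | false =>
    have e : ∀ o : Bool, Loc d a m [web false k, web true 1] [web true 1, web false k] 1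
        [cr 0 o] [cup 2 true k, cr 1 (!o), cap 0] := by
      intro o
      have e1 : Loc d a m [web false k, web true 1] [web true 1, web false k] 1
          ([cr 0 o] ++ []) ([cr 0 o] ++ [cup 2 true k, cap 1]) := by
        refine Loc.co (r := [web true 1, web false k]) (Loc.refl ?_)
          (Loc.iso (Move.zigL 1 true k) ?_ ?_).sy
        · simp [Run, step_cr_zero]
        · simp [Run, step_cup_succ, step_cup_zero, step_cap_succ, step_cap_zero, hk]
        · simp [Run]
      have e2 : Loc d a m [web false k, web true 1] [web true 1, web false k] 1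
          ([cr 0 o, cup 2 true k] ++ [cap 1]) ([cup 2 true k, cr 0 o] ++ [cap 1]) := by
        refine Loc.co (r := [web true 1, web false k, web true k, web false k])
          (Loc.iso (Move.far (cr 0 o) (cup 0 true k) (le_refl _)) ?_ ?_) (Loc.refl ?_)
        · simp [Run, Piece.shift, Piece.out, step_cup_succ, step_cup_zero, step_cr_zero, hk]
        · simp [Run, Piece.shift, Piece.inn, step_cup_succ, step_cup_zero, step_cr_zero, hk]
        · simp [Run, step_cap_succ, step_cap_zero]
      have e3 : Loc d a m [web false k, web true 1] [web true 1, web false k] 1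
          ([cup 2 true k] ++ [cr 0 o, cap 1]) ([cup 2 true k] ++ [cr 1 (!o), cap 0]) := by
        refine Loc.co (r := [web false k, web true 1, web true k, web false k]) (Loc.refl ?_)
          (Loc.iso (Move.slideCap 0 o) ?_ ?_)
        · simp [Run, step_cup_succ, step_cup_zero, hk]
        · simp [Run, step_cr_zero, step_cap_succ, step_cap_zero]
        · simp [Run, step_cr_succ, step_cr_zero, step_cap_zero]
      exact e1.tr (e2.tr e3)
    have e4 : Loc d a m [web false k, web true 1] [web true 1, web false k]
        (1 * ((a ^ (2 * (1 * k)) * 1)))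
        ([cup 2 true k] ++ ([cr 1 false] ++ [cap 0])) ([cup 2 true k] ++ ([cr 1 true] ++ [cap 0]))
        := by
      refine Loc.comp (r := [web false k, web true 1, web true k, web false k]) (Loc.refl ?_)
        (Loc.comp (r := [web false k, web true k, web true 1, web false k]) ?_ (Loc.refl ?_))
      · simp [Run, step_cup_succ, step_cup_zero, hk]
      · have h2 := (switch_up (m := m) ha hd (k := 1) (l := k) ⟨one_pos, h1⟩ hk).symm
          (inv_ne_zero (pow_ne_zero _ ha))
        rw [inv_inv] at h2
        exact (h2.left [web false k]).right [web false k]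
      · simp [Run, step_cap_zero]
    have := ((e true).trans e4).trans (e false).sy
    refine this.cast ?_
    simp [gs]

/-- crossing changes, the strand with weight one and upward direction on the left -/
theorem switch_left (ha : a ≠ 0) (hd : (a ^ d) ^ 2 = 1) {u : Bool} {k : ℕ} (hk : 0 < k ∧ k < d)
    (h1 : 1 < d) :
    Loc d a m [web true 1, web u k] [web u k, web true 1] (gs a (web u k))⁻¹
      [cr 0 true] [cr 0 false] := by
  cases u with
  | true =>
    have := switch_up (m := m) ha hd (k := 1) (l := k) ⟨one_pos, h1⟩ hk
    simpa [gs] using this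
  | false =>
    have e : ∀ o : Bool, Loc d a m [web true 1, web false k] [web false k, web true 1] 1
        [cr 0 o] [cup 0 false k, cr 1 (!o), cap 2] := by
      intro o
      have e1 : Loc d a m [web true 1, web false k] [web false k, web true 1] 1
          ([cr 0 o] ++ []) ([cr 0 o] ++ [cup 0 false k, cap 1]) := by
        refine Loc.co (r := [web false k, web true 1]) (Loc.refl ?_)
          (Loc.iso (Move.zigR 0 false k) ?_ ?_).sy
        · simp [Run, step_cr_zero]
        · simp [Run, step_cup_succ, step_cup_zero, step_cap_succ, step_cap_zero, hk]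
        · simp [Run]
      have e2 : Loc d a m [web true 1, web false k] [web false k, web true 1] 1
          ([cr 0 o, cup 0 false k] ++ [cap 1]) ([cup 0 false k, cr 2 o] ++ [cap 1]) := by
        refine Loc.co (r := [web false k, web true k, web false k, web true 1])
          (Loc.iso (Move.far (cup 0 false k) (cr 0 o) (le_refl _)) ?_ ?_).sy (Loc.refl ?_)
        · simp [Run, Piece.shift, Piece.out, step_cup_succ, step_cup_zero, step_cr_succ,
            step_cr_zero, hk]
        · simp [Run, Piece.shift, Piece.inn, step_cup_succ, step_cup_zero, step_cr_zero, hk]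
        · simp [Run, step_cap_succ, step_cap_zero]
      have e3 : Loc d a m [web true 1, web false k] [web false k, web true 1] 1
          ([cup 0 false k] ++ [cr 2 o, cap 1]) ([cup 0 false k] ++ [cr 1 (!o), cap 2]) := by
        refine Loc.co (r := [web false k, web true k, web true 1, web false k]) (Loc.refl ?_)
          (Loc.iso ?_ ?_ ?_).sy
        · simp [Run, step_cup_zero, hk]
        · have := Move.slideCap (d := d) 1 (!o)
          rwa [Bool.not_not] at this
        · simp [Run, step_cr_succ, step_cr_zero, step_cap_succ, step_cap_zero]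
        · simp [Run, step_cr_succ, step_cr_zero, step_cap_succ, step_cap_zero]
      exact e1.tr (e2.tr e3)
    have e4 : Loc d a m [web true 1, web false k] [web false k, web true 1]
        (1 * ((a ^ (2 * (k * 1)) * 1)))
        ([cup 0 false k] ++ ([cr 1 false] ++ [cap 2])) ([cup 0 false k] ++ ([cr 1 true] ++ [cap 2]))
        := by
      refine Loc.comp (r := [web false k, web true k, web true 1, web false k]) (Loc.refl ?_)
        (Loc.comp (r := [web false k, web true 1, web true k, web false k]) ?_ (Loc.refl ?_))
      · simp [Run, step_cup_succ, step_cup_zero, hk]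
      · have h2 := (switch_up (m := m) ha hd (k := k) (l := 1) hk ⟨one_pos, h1⟩).symm
          (inv_ne_zero (pow_ne_zero _ ha))
        rw [inv_inv] at h2
        exact (h2.left [web false k]).right [web false k]
      · simp [Run, step_cap_succ, step_cap_zero]
    have := ((e true).trans e4).trans (e false).sy
    refine this.cast ?_
    simp [gs]

end Pool.Agent.Helper26.SK
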